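import Pool.Agent.H88.Pl.MainA

/-!
# PF3 (MP_460e77_co, helper16): at least three largest cyclic factors for `p ≥ 5`: definitions

`f : H → K` planar, `|H| = |K| = p ^ r`, `G = H × K` of exponent `p ^ e`, `e ≥ 2`, `m = p ^ (e - 1)`.
`gr f h = (h, f h)` are the points of the graph.  `P = m G` has exponent `p` and `m P = 0` (`e ≥ 2`).
-/

set_option autoImplicit false

namespace Pool.Agent.H16.PF3

open Finset Pool.Agent.H88.Pl

/-- the points of the graph of `f` -/
def gr {H K : Type*} (f : H → K) (h : H) : H × K := (h, f h)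

section

variable {G H K : Type*} [AddCommGroup H] [AddCommGroup K] [Fintype H] [Fintype K]
  [DecidableEq H] [DecidableEq K]

/-- the subgroup `m G` as a finset -/
def Pf (H K : Type*) [AddCommGroup H] [AddCommGroup K] [Fintype H] [Fintype K]
    [DecidableEq H] [DecidableEq K] (m : ℕ) : Finset (H × K) :=
  univ.image fun g : H × K => m • g

/-- ordered pairs in different slices with sum in the coset `x + m G` -/
def II (f : H → K) (m : ℕ) (x : H × K) : Finset (H × H) :=
  univ.filter fun ab => m • gr f ab.1 ≠ m • gr f ab.2 ∧ gr f ab.1 + gr f ab.2 - x ∈ Pf H K m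

/-- all ordered pairs with sum in the coset `x + m G` -/
def YY (f : H → K) (m : ℕ) (x : H × K) : Finset (H × H) :=
  univ.filter fun ab => gr f ab.1 + gr f ab.2 - x ∈ Pf H K m

/-- ordered pairs in different slices with sum in a bad coset -/
def BP (f : H → K) (m p : ℕ) : Finset (H × H) :=
  univ.filter fun ab => m • gr f ab.1 ≠ m • gr f ab.2 ∧
    4 * p ^ 2 ≤ 3 * (II f m (gr f ab.1 + gr f ab.2)).card

open scoped Classical in
/-- the pairs `(c, d)` in the same slices as `(a, b)` with sum on the line through `a + b` in the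
direction `m (a - b)` -/
noncomputable def NN (f : H → K) (m : ℕ) (a b : H) : Finset (H × H) :=
  univ.filter fun cd => m • gr f cd.1 = m • gr f a ∧ m • gr f cd.2 = m • gr f b ∧
    ∃ k : ℕ, gr f cd.1 + gr f cd.2 = gr f a + gr f b + k • (m • gr f a - m • gr f b)

/-- character sum over the slice `w` -/
noncomputable def us (f : H → K) (m : ℕ) (χ : AddChar (H × K) ℂ) (w : H × K) : ℂ :=
  ∑ h ∈ univ.filter (fun h => m • gr f h = w), χ (gr f h)

end

/-- cross product in the plane over `ZMod p` -/
def cr {p : ℕ} (u v : ZMod p × ZMod p) : ZMod p := u.1 * v.2 - u.2 * v.1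

/-- Flags in the affine plane: a finite family of points `y i` with nonzero vectors `δ i`, such that
for each `k` the points `y i + k δ i` cover each point of `X` twice and nothing else. -/
structure Flags (p : ℕ) {I : Type*} [Fintype I] (y δ : I → ZMod p × ZMod p)
    (X : Finset (ZMod p × ZMod p)) : Prop where
  ne : ∀ i, δ i ≠ 0
  fib : ∀ (k : ZMod p) (x : ZMod p × ZMod p),
    (univ.filter fun i => y i + k • δ i = x).card = if x ∈ X then 2 else 0
  ex : ∀ i, ∃ j, y j = y i ∧ δ j = - δ i
  inj : ∀ i j, y i = y j → δ i = δ j → i = j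
  small : 3 * Fintype.card I < 4 * p ^ 2

/-- number of flags on the line of the flag `i` with parallel vectors -/
def MM {p : ℕ} {I : Type*} [Fintype I] (y δ : I → ZMod p × ZMod p) (i : I) : ℕ :=
  (univ.filter fun j => cr (δ j) (δ i) = 0 ∧ cr (y j - y i) (δ i) = 0).card

/-- number of flags with vector parallel to that of `i` -/
def MD {p : ℕ} {I : Type*} [Fintype I] (δ : I → ZMod p × ZMod p) (i : I) : ℕ :=
  (univ.filter fun j => cr (δ j) (δ i) = 0).card

end Pool.Agent.H16.PF3
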