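import Pool.Agent.H16.PF3.Sidon

/-!
# PF3 Low: lower bounds for good characters, counting characters, squares of the slices

`P = Pf H K m`, `N = |H × K|`.
`second`: `∑_{w ∈ P} ‖us χ w‖² = ∑_{m • gr a = m • gr b} χ (gr a - gr b)`, which by `sum_pairs_ker` (with `F = χ`) is
`|H| + ∑_{m • x = 0, x.1 ≠ 0} χ x`, and the last sum is the sum of `χ` over `{x : m • x = 0}` minus the sum over `{(0, k) : m • k = 0}`; both are `0` because
`χ` is not trivial on these two subgroups (`hχ`; translate the sum by the element `(0, k)` with `χ ≠ 1`).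
`key`: `χ` not trivial on `P`, `|P| = p²`, `p P = 0`: for `w ∈ P` the number of `w' ∈ P` with `χ w' = χ w` is `p` (the kernel of `χ` on `P`: `χ` maps `P` onto the
`p`-th roots of unity: `χ g ≠ 1`, `g ∈ P`; the translations by `k • g`, `k < p`, permute the classes; or at most: the kernel is a proper subgroup of
`P`, `p` elements at most).  `2 ‖us w‖² ‖us w'‖² ≤ ‖us w‖⁴ + ‖us w'‖⁴`, so the sum over the pairs with `χ w = χ w'` is at most `p ∑_w ‖us w‖⁴`; all
pairs together give `(∑_w ‖us w‖²)²`.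
`card_triv_P`: the characters trivial on `P`: `∑_χ ∑_{w ∈ P} χ w = N` (`AddChar.sum_apply_eq_ite`), and the inner sum is `|P|` if `χ` is trivial on `P` and `0`
otherwise.  (See `ta_count2` in Pool/Agent/H88/Pl/TA.lean.)
`card_triv_ker`: in the same way for the subgroup `{(0, k) : m • k = 0}` with `n'` elements: `n' * (number of characters trivial on it) = N`, and
`n' * |m K| = |K|`, `|m K| ≤ |P|` (`(0, m • k) = m • (0, k)`), so `|K| ≤ n' |P|`.
`sum_slices_sq`: `∑_{w ∈ P} (slice w)² = |{(a, b) : m • gr a = m • gr b}| = |H| + |{x : m • x = 0, x.1 ≠ 0}|` (`sum_pairs_ker` with `F = 1`), and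
`|{x : m • x = 0}| * |P| = N`.
-/

set_option autoImplicit false

namespace Pool.Agent.H16.PF3

open Finset Pool.Agent.H88.Pl

variable {H K : Type*} [AddCommGroup H] [AddCommGroup K] [Fintype H] [Fintype K]
  [DecidableEq H] [DecidableEq K]

private theorem low_zero {A : Type*} [AddCommGroup A] [Fintype A] (χ : AddChar A ℂ) (S : Finset A)
    (g : A) (h1 : ∀ x ∈ S, x + g ∈ S) (h2 : ∀ x ∈ S, x - g ∈ S) (hg : χ g ≠ 1) :
    ∑ x ∈ S, χ x = 0 := by
  have e : ∑ x ∈ S, χ x = (∑ x ∈ S, χ x) * χ g := by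
    rw [sum_mul]
    symm
    apply sum_bij (fun x _ => x + g)
    · exact h1
    · intro a _ b _ hab
      exact add_right_cancel hab
    · intro b hb
      exact ⟨b - g, h2 b hb, sub_add_cancel b g⟩
    · intro a _
      exact (AddChar.map_add_eq_mul χ a g).symm
  have e2 : (∑ x ∈ S, χ x) * (1 - χ g) = 0 := by
    rw [mul_sub, mul_one, ← e, sub_self]
  exact (mul_eq_zero.mp e2).resolve_right (sub_ne_zero.mpr (Ne.symm hg))

private theorem low_mem {m : ℕ} {x : H × K} : x ∈ Pf H K m ↔ ∃ g : H × K, m • g = x := by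
  unfold Pf
  simp only [mem_image, mem_univ, true_and]

private theorem low_P_sub {m : ℕ} {x y : H × K} (hx : x ∈ Pf H K m) (hy : y ∈ Pf H K m) :
    x - y ∈ Pf H K m := by
  obtain ⟨g, rfl⟩ := low_mem.mp hx
  obtain ⟨g', rfl⟩ := low_mem.mp hy
  exact low_mem.mpr ⟨g - g', smul_sub m g g'⟩

private theorem low_P_add {m : ℕ} {x y : H × K} (hx : x ∈ Pf H K m) (hy : y ∈ Pf H K m) :
    x + y ∈ Pf H K m := by
  obtain ⟨g, rfl⟩ := low_mem.mp hx
  obtain ⟨g', rfl⟩ := low_mem.mp hy
  exact low_mem.mpr ⟨g + g', smul_add m g g'⟩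

private theorem low_P_nsmul {m : ℕ} {x : H × K} (hx : x ∈ Pf H K m) (k : ℕ) :
    k • x ∈ Pf H K m := by
  obtain ⟨g, rfl⟩ := low_mem.mp hx
  exact low_mem.mpr ⟨k • g, by rw [smul_comm]⟩

private theorem low_fib (A : Type*) [AddCommGroup A] [Fintype A] [DecidableEq A] (m : ℕ) :
    ((univ.image fun x : A => m • x).card) * (univ.filter fun x : A => m • x = 0).card =
      Fintype.card A := by
  rw [← card_univ (α := A), card_eq_sum_card_image (fun x : A => m • x) univ]
  have h : ∀ b ∈ univ.image (fun x : A => m • x),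
      (univ.filter fun x : A => m • x = b).card = (univ.filter fun x : A => m • x = 0).card := by
    intro b hb
    obtain ⟨a, _, rfl⟩ := mem_image.mp hb
    apply card_bij (fun x _ => x - a)
    · intro x hx
      have := (mem_filter.mp hx).2
      exact mem_filter.mpr ⟨mem_univ _, by rw [smul_sub, this, sub_self]⟩
    · intro x _ y _ hxy
      exact sub_left_injective hxy
    · intro y hy
      have := (mem_filter.mp hy).2
      exact ⟨y + a, mem_filter.mpr ⟨mem_univ _, by rw [smul_add, this, zero_add]⟩,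
        add_sub_cancel_right _ _⟩
  rw [sum_congr rfl h, sum_const, smul_eq_mul]

/-- a sum over the slices -/
private theorem low_slices {M : Type*} [AddCommMonoid M] (f : H → K) (m : ℕ)
    (F : H → H → M) :
    ∑ w ∈ Pf H K m, ∑ a ∈ univ.filter (fun h : H => m • gr f h = w),
      ∑ b ∈ univ.filter (fun h : H => m • gr f h = w), F a b =
    ∑ ab ∈ univ.filter (fun ab : H × H => m • gr f ab.1 = m • gr f ab.2), F ab.1 ab.2 := by
  have h1 : ∀ w ∈ Pf H K m, ∑ a ∈ univ.filter (fun h : H => m • gr f h = w),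
      ∑ b ∈ univ.filter (fun h : H => m • gr f h = w), F a b =
      ∑ ab ∈ (univ.filter (fun ab : H × H => m • gr f ab.1 = m • gr f ab.2)).filter
        (fun ab => m • gr f ab.1 = w), F ab.1 ab.2 := by
    intro w _
    rw [← sum_product']
    apply sum_congr
    · ext ab
      simp only [mem_product, mem_filter, mem_univ, true_and]
      constructor
      · rintro ⟨h1, h2⟩
        exact ⟨by rw [h1, h2], h1⟩
      · rintro ⟨h1, h2⟩
        exact ⟨h2, by rw [← h1, h2]⟩
    · intro _ _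
      rfl
  rw [sum_congr rfl h1]
  exact sum_fiberwise_of_maps_to (fun ab _ => low_mem.mpr ⟨_, rfl⟩) _

theorem second {f : H → K} (hf : IsPlanar f) (m : ℕ) (χ : AddChar (H × K) ℂ)
    (hχ : ∃ k : K, m • k = 0 ∧ χ ((0 : H), k) ≠ 1) :
    ∑ w ∈ Pf H K m, ‖us f m χ w‖ ^ 2 = (Fintype.card H : ℝ) := by
  obtain ⟨k0, hk0, hk1⟩ := hχ
  have h1 : ∀ w, ((‖us f m χ w‖ ^ 2 : ℝ) : ℂ) =
      ∑ a ∈ univ.filter (fun h : H => m • gr f h = w),
        ∑ b ∈ univ.filter (fun h : H => m • gr f h = w), χ (gr f a - gr f b) := by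
    intro w
    rw [Complex.ofReal_pow, ← Complex.mul_conj']
    unfold us
    rw [map_sum, sum_mul_sum]
    apply sum_congr rfl
    intro a _
    apply sum_congr rfl
    intro b _
    rw [← AddChar.map_neg_eq_conj, ← AddChar.map_add_eq_mul, sub_eq_add_neg]
  have hm : ∀ x : H × K, m • x = 0 → m • (x + ((0 : H), k0)) = 0 := by
    intro x hx
    rw [smul_add, hx, zero_add]
    ext
    · simp
    · simpa using hk0
  have hm' : ∀ x : H × K, m • x = 0 → m • (x - ((0 : H), k0)) = 0 := by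
    intro x hx
    rw [smul_sub, hx, zero_sub, neg_eq_zero]
    ext
    · simp
    · simpa using hk0
  have hS1 : ∑ x ∈ univ.filter (fun x : H × K => m • x = 0), χ x = 0 := by
    apply low_zero χ _ ((0 : H), k0) _ _ hk1
    · intro x hx
      exact mem_filter.mpr ⟨mem_univ _, hm x (mem_filter.mp hx).2⟩
    · intro x hx
      exact mem_filter.mpr ⟨mem_univ _, hm' x (mem_filter.mp hx).2⟩
  have hS2 : ∑ x ∈ (univ.filter (fun x : H × K => m • x = 0)).filter (fun x => ¬ x.1 ≠ 0), χ x = 0 := by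
    apply low_zero χ _ ((0 : H), k0) _ _ hk1
    · intro x hx
      obtain ⟨hx1, hx2⟩ := mem_filter.mp hx
      exact mem_filter.mpr ⟨mem_filter.mpr ⟨mem_univ _, hm x (mem_filter.mp hx1).2⟩,
        by simpa using hx2⟩
    · intro x hx
      obtain ⟨hx1, hx2⟩ := mem_filter.mp hx
      exact mem_filter.mpr ⟨mem_filter.mpr ⟨mem_univ _, hm' x (mem_filter.mp hx1).2⟩,
        by simpa using hx2⟩
  have hS3 : ∑ x ∈ univ.filter (fun x : H × K => m • x = 0 ∧ x.1 ≠ 0), χ x = 0 := by
    have h2 := sum_filter_add_sum_filter_not (univ.filter (fun x : H × K => m • x = 0))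
      (fun x => x.1 ≠ 0) (fun x => χ x)
    rw [hS1, hS2, add_zero, filter_filter] at h2
    exact h2
  have h3 : ((∑ w ∈ Pf H K m, ‖us f m χ w‖ ^ 2 : ℝ) : ℂ) = ((Fintype.card H : ℝ) : ℂ) := by
    rw [Complex.ofReal_sum, sum_congr rfl (fun w _ => h1 w),
      low_slices f m (fun a b => χ (gr f a - gr f b)), sum_pairs_ker hf m (fun x => χ x), hS3,
      add_zero, AddChar.map_zero_eq_one]
    simp
  exact_mod_cast h3

private theorem low_root {p : ℕ} [Fact p.Prime] {z : ℂ} (hz : z ^ p = 1) (hz1 : z ≠ 1) {a b : ℕ}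
    (ha : a < p) (hb : b < p) (h : z ^ a = z ^ b) : a = b := by
  have hprim : IsPrimitiveRoot z p := by
    have h1 : orderOf z = p := orderOf_eq_prime hz hz1
    rw [← h1]
    exact IsPrimitiveRoot.orderOf z
  exact hprim.pow_inj ha hb h

private theorem low_class {p : ℕ} [Fact p.Prime] (m : ℕ) (hpm : ∀ g : H × K, p • m • g = 0)
    (hP : (Pf H K m).card = p ^ 2) (χ : AddChar (H × K) ℂ) (hχ : ∃ w ∈ Pf H K m, χ w ≠ 1)
    (w : H × K) : ((Pf H K m).filter (fun w' => χ w = χ w')).card ≤ p := by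
  obtain ⟨g, hg, hg1⟩ := hχ
  have hp : 0 < p := (Fact.out : p.Prime).pos
  have hpg : p • g = 0 := by
    obtain ⟨g', rfl⟩ := low_mem.mp hg
    exact hpm g'
  have hz : χ g ^ p = 1 := by
    rw [← AddChar.map_nsmul_eq_pow, hpg, AddChar.map_zero_eq_one]
  have hinj : ((range p) ×ˢ ((Pf H K m).filter (fun w' => χ w = χ w'))).card ≤
      (Pf H K m).card := by
    apply card_le_card_of_injOn (fun x => x.2 + x.1 • g)
    · intro x hx
      obtain ⟨_, h2⟩ := mem_product.mp hx
      exact low_P_add (mem_filter.mp h2).1 (low_P_nsmul hg _)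
    · intro x hx y hy hxy
      obtain ⟨hx1, hx2⟩ := mem_product.mp hx
      obtain ⟨hy1, hy2⟩ := mem_product.mp hy
      simp only at hxy
      have h3 : χ (x.2 + x.1 • g) = χ (y.2 + y.1 • g) := by rw [hxy]
      rw [AddChar.map_add_eq_mul, AddChar.map_add_eq_mul, ← (mem_filter.mp hx2).2,
        ← (mem_filter.mp hy2).2, AddChar.map_nsmul_eq_pow, AddChar.map_nsmul_eq_pow] at h3
      have h4 : χ w ≠ 0 := by
        intro h0
        have h5 : χ (w + -w) = χ w * χ (-w) := AddChar.map_add_eq_mul χ w (-w)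
        rw [add_neg_cancel, AddChar.map_zero_eq_one, h0, zero_mul] at h5
        exact one_ne_zero h5
      have h6 := low_root hz hg1 (mem_range.mp hx1) (mem_range.mp hy1) (mul_left_cancel₀ h4 h3)
      have h7 : x.2 = y.2 := by
        rw [h6] at hxy
        exact add_right_cancel hxy
      exact Prod.ext h6 h7
  rw [card_product, card_range, hP, sq] at hinj
  exact Nat.le_of_mul_le_mul_left hinj hp

theorem key {p : ℕ} [Fact p.Prime] (f : H → K) (m : ℕ) (hpm : ∀ g : H × K, p • m • g = 0)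
    (hP : (Pf H K m).card = p ^ 2) (χ : AddChar (H × K) ℂ) (hχ : ∃ w ∈ Pf H K m, χ w ≠ 1) :
    (∑ w ∈ Pf H K m, ‖us f m χ w‖ ^ 2) ^ 2 ≤
      (∑ w ∈ Pf H K m, ∑ w' ∈ Pf H K m,
        (if χ w = χ w' then 0 else ‖us f m χ w‖ ^ 2 * ‖us f m χ w'‖ ^ 2)) +
      p * ∑ w ∈ Pf H K m, ‖us f m χ w‖ ^ 4 := by
  set P := Pf H K m with hPd
  have hsplit : (∑ w ∈ P, ‖us f m χ w‖ ^ 2) ^ 2 =
      (∑ w ∈ P, ∑ w' ∈ P, (if χ w = χ w' then 0 else ‖us f m χ w‖ ^ 2 * ‖us f m χ w'‖ ^ 2)) +
      ∑ w ∈ P, ∑ w' ∈ P, (if χ w = χ w' then ‖us f m χ w‖ ^ 2 * ‖us f m χ w'‖ ^ 2 else 0) := by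
    rw [sq, sum_mul_sum, ← sum_add_distrib]
    apply sum_congr rfl
    intro w _
    rw [← sum_add_distrib]
    apply sum_congr rfl
    intro w' _
    split_ifs <;> simp
  rw [hsplit]
  apply add_le_add le_rfl
  have hcl : ∀ w, ((P.filter (fun w' => χ w = χ w')).card : ℝ) ≤ p := fun w => by
    exact_mod_cast low_class m hpm hP χ hχ w
  have hA : ∑ w ∈ P, ∑ w' ∈ P, (if χ w = χ w' then ‖us f m χ w‖ ^ 4 / 2 else 0) ≤
      (p * ∑ w ∈ P, ‖us f m χ w‖ ^ 4) / 2 := by
    rw [mul_sum, sum_div]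
    apply sum_le_sum
    intro w _
    rw [← sum_filter, sum_const, nsmul_eq_mul]
    have := mul_le_mul_of_nonneg_right (hcl w) (show 0 ≤ ‖us f m χ w‖ ^ 4 / 2 by positivity)
    linarith
  have hB : ∑ w ∈ P, ∑ w' ∈ P, (if χ w = χ w' then ‖us f m χ w'‖ ^ 4 / 2 else 0) ≤
      (p * ∑ w ∈ P, ‖us f m χ w‖ ^ 4) / 2 := by
    rw [sum_comm]
    refine le_trans (le_of_eq ?_) hA
    apply sum_congr rfl
    intro w _
    apply sum_congr rfl
    intro w' _
    by_cases h : χ w = χ w'
    · rw [if_pos h, if_pos h.symm]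
    · rw [if_neg h, if_neg (fun h' => h h'.symm)]
  have hC : ∑ w ∈ P, ∑ w' ∈ P,
      (if χ w = χ w' then ‖us f m χ w‖ ^ 2 * ‖us f m χ w'‖ ^ 2 else 0) ≤
      (∑ w ∈ P, ∑ w' ∈ P, (if χ w = χ w' then ‖us f m χ w‖ ^ 4 / 2 else 0)) +
      ∑ w ∈ P, ∑ w' ∈ P, (if χ w = χ w' then ‖us f m χ w'‖ ^ 4 / 2 else 0) := by
    rw [← sum_add_distrib]
    apply sum_le_sum
    intro w _
    rw [← sum_add_distrib]
    apply sum_le_sum
    intro w' _
    split_ifs
    · nlinarith [sq_nonneg (‖us f m χ w‖ ^ 2 - ‖us f m χ w'‖ ^ 2)]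
    · simp
  linarith

private theorem low_count {A : Type*} [AddCommGroup A] [Fintype A] [DecidableEq A] (S : Finset A)
    (h0 : (0 : A) ∈ S) (ha : ∀ x ∈ S, ∀ y ∈ S, x + y ∈ S) (hs : ∀ x ∈ S, ∀ y ∈ S, x - y ∈ S) :
    S.card * (univ.filter fun χ : AddChar A ℂ => ∀ w ∈ S, χ w = 1).card = Fintype.card A := by
  classical
  have h1 : ∑ χ : AddChar A ℂ, ∑ w ∈ S, χ w = (Fintype.card A : ℂ) := by
    rw [sum_comm, sum_eq_single_of_mem (0 : A) h0]
    · rw [AddChar.sum_apply_eq_ite]
      simp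
    · intro w _ hw
      rw [AddChar.sum_apply_eq_ite, if_neg hw]
  have h2 : ∀ χ : AddChar A ℂ, ∑ w ∈ S, χ w = if (∀ w ∈ S, χ w = 1) then (S.card : ℂ) else 0 := by
    intro χ
    split_ifs with h
    · rw [sum_congr rfl h]
      simp
    · push Not at h
      obtain ⟨g, hg, hg1⟩ := h
      exact low_zero χ S g (fun x hx => ha x hx g hg) (fun x hx => hs x hx g hg) hg1
  rw [sum_congr rfl fun χ _ => h2 χ, ← sum_filter, sum_const, nsmul_eq_mul] at h1
  have h3 : (((univ.filter (fun χ : AddChar A ℂ => ∀ w ∈ S, χ w = 1)).card * S.card : ℕ) : ℂ) =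
      (Fintype.card A : ℂ) := by
    push_cast
    exact h1
  rw [mul_comm]
  exact_mod_cast h3

theorem card_triv_P (m : ℕ) :
    (Pf H K m).card * (univ.filter fun χ : AddChar (H × K) ℂ => ∀ w ∈ Pf H K m, χ w = 1).card =
      Fintype.card (H × K) := by
  have h := low_count (Pf H K m) (low_mem.mpr ⟨0, smul_zero m⟩)
    (fun x hx y hy => low_P_add hx hy) (fun x hx y hy => low_P_sub hx hy)
  exact h

theorem card_triv_ker (m : ℕ) :
    Fintype.card K * (univ.filter fun χ : AddChar (H × K) ℂ =>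
      ∀ k : K, m • k = 0 → χ ((0 : H), k) = 1).card ≤
      (Pf H K m).card * Fintype.card (H × K) := by
  classical
  set S : Finset (H × K) := univ.filter (fun x : H × K => x.1 = 0 ∧ m • x.2 = 0) with hS
  have h1 := low_count S (mem_filter.mpr ⟨mem_univ _, rfl, smul_zero m⟩)
    (fun x hx y hy => by
      obtain ⟨a, b⟩ := (mem_filter.mp hx).2
      obtain ⟨c, d⟩ := (mem_filter.mp hy).2
      exact mem_filter.mpr ⟨mem_univ _, by rw [Prod.fst_add, a, c, add_zero],
        by rw [Prod.snd_add, smul_add, b, d, add_zero]⟩)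
    (fun x hx y hy => by
      obtain ⟨a, b⟩ := (mem_filter.mp hx).2
      obtain ⟨c, d⟩ := (mem_filter.mp hy).2
      exact mem_filter.mpr ⟨mem_univ _, by rw [Prod.fst_sub, a, c, sub_zero],
        by rw [Prod.snd_sub, smul_sub, b, d, sub_zero]⟩)
  have h2 : S.card = (univ.filter fun k : K => m • k = 0).card := by
    symm
    apply card_bij (fun k _ => ((0 : H), k))
    · intro k hk
      exact mem_filter.mpr ⟨mem_univ _, rfl, (mem_filter.mp hk).2⟩
    · intro a _ b _ hab
      exact (Prod.mk.inj hab).2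
    · intro x hx
      obtain ⟨a, b⟩ := (mem_filter.mp hx).2
      exact ⟨x.2, mem_filter.mpr ⟨mem_univ _, b⟩, Prod.ext a.symm rfl⟩
  have h3 : (univ.filter fun χ : AddChar (H × K) ℂ => ∀ w ∈ S, χ w = 1) =
      univ.filter fun χ : AddChar (H × K) ℂ => ∀ k : K, m • k = 0 → χ ((0 : H), k) = 1 := by
    ext χ
    simp only [mem_filter, mem_univ, true_and]
    constructor
    · intro h k hk
      exact h _ (mem_filter.mpr ⟨mem_univ _, rfl, hk⟩)
    · intro h w hw
      obtain ⟨a, b⟩ := (mem_filter.mp hw).2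
      have := h w.2 b
      rwa [show ((0 : H), w.2) = w from Prod.ext a.symm rfl] at this
  rw [h2, h3] at h1
  have h4 := low_fib K m
  have h5 : (univ.image fun k : K => m • k).card ≤ (Pf H K m).card := by
    apply card_le_card_of_injOn (fun k => ((0 : H), k))
    · intro k hk
      obtain ⟨a, _, rfl⟩ := mem_image.mp hk
      exact low_mem.mpr ⟨((0 : H), a), by ext <;> simp⟩
    · intro a _ b _ hab
      exact (Prod.mk.inj hab).2
  have h6 : (univ.filter fun χ : AddChar (H × K) ℂ =>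
      ∀ k : K, m • k = 0 → χ ((0 : H), k) = 1).card = (univ.filter fun χ : AddChar (H × K) ℂ =>
      ∀ k : K, m • k = 0 → χ ((0 : H), k) = 1).card := rfl
  calc Fintype.card K * (univ.filter fun χ : AddChar (H × K) ℂ =>
        ∀ k : K, m • k = 0 → χ ((0 : H), k) = 1).card
      = (univ.image fun k : K => m • k).card * ((univ.filter fun k : K => m • k = 0).card *
        (univ.filter fun χ : AddChar (H × K) ℂ =>
          ∀ k : K, m • k = 0 → χ ((0 : H), k) = 1).card) := by
        rw [← h4, Nat.mul_assoc]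
    _ = (univ.image fun k : K => m • k).card * Fintype.card (H × K) := by
        rw [← h1]
    _ ≤ (Pf H K m).card * Fintype.card (H × K) := Nat.mul_le_mul_right _ h5

theorem sum_slices_sq {f : H → K} (hf : IsPlanar f) (m : ℕ) :
    (Pf H K m).card * ∑ w ∈ Pf H K m, (univ.filter fun h : H => m • gr f h = w).card ^ 2 ≤
      (Pf H K m).card * Fintype.card H + Fintype.card (H × K) := by
  have h1 : ∑ w ∈ Pf H K m, (univ.filter fun h : H => m • gr f h = w).card ^ 2 =
      Fintype.card H + (univ.filter (fun x : H × K => m • x = 0 ∧ x.1 ≠ 0)).card := by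
    have h2 := low_slices f m (fun _ _ => (1 : ℕ))
    have h3 := sum_pairs_ker hf m (fun _ => (1 : ℕ))
    simp only [sum_const, smul_eq_mul, mul_one] at h2 h3
    rw [← h3, ← h2]
    apply sum_congr rfl
    intro w _
    rw [sq]
  have h4 : (univ.filter (fun x : H × K => m • x = 0 ∧ x.1 ≠ 0)).card ≤
      (univ.filter (fun x : H × K => m • x = 0)).card := by
    apply card_le_card
    intro x hx
    exact mem_filter.mpr ⟨mem_univ _, (mem_filter.mp hx).2.1⟩
  have h5 : (Pf H K m).card * (univ.filter (fun x : H × K => m • x = 0)).card =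
      Fintype.card (H × K) := low_fib (H × K) m
  rw [h1, Nat.mul_add]
  have h6 := Nat.mul_le_mul_left (Pf H K m).card h4
  omega

end Pool.Agent.H16.PF3
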