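import Pool.Agent.H16.PF3.Sidon

/-!
# PF3 Mom: few pairs lie in bad cosets

`q = |H| = |K|`, `G = H × K`, `|G| = q²`, `P = Pf H K m` a subgroup (the range of `x ↦ m • x`), `|P| = n` (in the application `n = p²`).
`sum_YY`: `∑_x |YY x| = q² n`: count `(x, ab)` with `gr a + gr b - x ∈ P`.
`sum_YY_sq`: `∑_x |YY x|² = |{(x, ab, cd) : both sums in x + P}| = n * |{(ab, cd) : gr a + gr b - gr c - gr d ∈ P}|` (for given `ab`, `cd` with difference of the sums
in `P` there are `n` possible `x`), and by `quad_zero`, `quad_shift` the last number is at most `2 q² + (n - 1) q² = (n + 1) q²`.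
`bad_pairs`, `n = p²`: so `∑_x (|YY x| - p²)² ≤ p² (p² + 1) q² - 2 p² p² q² + p⁴ q² = p² q²` (real numbers).  `II x ⊆ YY x`.
Call `x` bad if `4 p² ≤ 3 |II x|`.  If `x` is bad, `Y = |YY x| ≥ 4 p² / 3`, so `p² Y ≤ 12 (Y - p²)²` (with `Y = p² (1 + s)`, `s ≥ 1/3`:
`1 + s ≤ 12 s²`).  So `∑_{x bad} p² |II x| ≤ 12 p² q²`, `∑_{x bad} |II x| ≤ 12 q²`.
Badness only depends on the coset of `x` (`II f m x = II f m x'` if `x - x' ∈ P`), so
`∑_{x bad} |II x| = |{(x, ab) : ab in different slices, gr a + gr b ∈ x + P, gr a + gr b bad}| = p² |BP|`.  Hence `p² |BP| ≤ 12 q²`.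
-/

set_option autoImplicit false

namespace Pool.Agent.H16.PF3

open Finset Pool.Agent.H88.Pl

variable {H K : Type*} [AddCommGroup H] [AddCommGroup K] [Fintype H] [Fintype K]
  [DecidableEq H] [DecidableEq K]

private theorem mom_mem {m : ℕ} {x : H × K} : x ∈ Pf H K m ↔ ∃ g : H × K, m • g = x := by
  unfold Pf
  simp only [mem_image, mem_univ, true_and]

private theorem mom_zero (m : ℕ) : (0 : H × K) ∈ Pf H K m := mom_mem.mpr ⟨0, smul_zero m⟩

private theorem mom_sub {m : ℕ} {x y : H × K} (hx : x ∈ Pf H K m) (hy : y ∈ Pf H K m) :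
    x - y ∈ Pf H K m := by
  obtain ⟨g, rfl⟩ := mom_mem.mp hx
  obtain ⟨g', rfl⟩ := mom_mem.mp hy
  exact mom_mem.mpr ⟨g - g', smul_sub m g g'⟩

private theorem mom_add {m : ℕ} {x y : H × K} (hx : x ∈ Pf H K m) (hy : y ∈ Pf H K m) :
    x + y ∈ Pf H K m := by
  obtain ⟨g, rfl⟩ := mom_mem.mp hx
  obtain ⟨g', rfl⟩ := mom_mem.mp hy
  exact mom_mem.mpr ⟨g + g', smul_add m g g'⟩

private theorem mom_card_x (m : ℕ) (s : H × K) :
    (univ.filter fun x : H × K => s - x ∈ Pf H K m).card = (Pf H K m).card := by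
  apply card_bij (fun x _ => s - x)
  · intro x hx
    exact (mem_filter.mp hx).2
  · intro x _ y _ hxy
    exact sub_right_injective hxy
  · intro y hy
    exact ⟨s - y, mem_filter.mpr ⟨mem_univ _, by rw [sub_sub_cancel]; exact hy⟩,
      sub_sub_cancel _ _⟩

theorem sum_YY (f : H → K) (m : ℕ) :
    ∑ x : H × K, (YY f m x).card = Fintype.card H ^ 2 * (Pf H K m).card := by
  have h : ∀ ab : H × H, ∑ x : H × K,
      (if gr f ab.1 + gr f ab.2 - x ∈ Pf H K m then 1 else 0) = (Pf H K m).card := by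
    intro ab
    rw [← card_filter]
    exact mom_card_x m _
  calc ∑ x : H × K, (YY f m x).card = ∑ x : H × K, ∑ ab : H × H,
        (if gr f ab.1 + gr f ab.2 - x ∈ Pf H K m then 1 else 0) := by
        apply sum_congr rfl
        intro x _
        unfold YY
        rw [card_filter]
    _ = ∑ ab : H × H, ∑ x : H × K,
        (if gr f ab.1 + gr f ab.2 - x ∈ Pf H K m then 1 else 0) := sum_comm
    _ = ∑ _ab : H × H, (Pf H K m).card := sum_congr rfl (fun ab _ => h ab)
    _ = Fintype.card H ^ 2 * (Pf H K m).card := by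
        rw [sum_const, card_univ, Fintype.card_prod, smul_eq_mul, sq]

private theorem mom_quad {f : H → K} (hf : IsPlanar f) (m : ℕ) :
    (univ.filter fun q : (H × H) × (H × H) =>
      (gr f q.1.1 + gr f q.1.2) - (gr f q.2.1 + gr f q.2.2) ∈ Pf H K m).card ≤
      ((Pf H K m).card + 1) * Fintype.card H ^ 2 := by
  have hsub : (univ.filter fun q : (H × H) × (H × H) =>
      (gr f q.1.1 + gr f q.1.2) - (gr f q.2.1 + gr f q.2.2) ∈ Pf H K m) ⊆
      (Pf H K m).biUnion (fun z => univ.filter fun q : (H × H) × (H × H) =>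
        gr f q.1.1 + gr f q.1.2 = gr f q.2.1 + gr f q.2.2 + z) := by
    intro q hq
    have hq' := (mem_filter.mp hq).2
    rw [mem_biUnion]
    exact ⟨_, hq', mem_filter.mpr ⟨mem_univ _, by abel⟩⟩
  refine (card_le_card hsub).trans (card_biUnion_le.trans ?_)
  rw [← add_sum_erase _ _ (mom_zero (H := H) (K := K) m)]
  have h0 : (univ.filter fun q : (H × H) × (H × H) =>
        gr f q.1.1 + gr f q.1.2 = gr f q.2.1 + gr f q.2.2 + 0).card ≤
      2 * Fintype.card H ^ 2 := by
    simp only [add_zero]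
    exact quad_zero hf
  have h1 : ∑ z ∈ (Pf H K m).erase 0, (univ.filter fun q : (H × H) × (H × H) =>
        gr f q.1.1 + gr f q.1.2 = gr f q.2.1 + gr f q.2.2 + z).card ≤
      ∑ _z ∈ (Pf H K m).erase 0, Fintype.card H ^ 2 :=
    sum_le_sum (fun z hz => quad_shift hf (mem_erase.mp hz).1)
  rw [sum_const, card_erase_of_mem (mom_zero m), smul_eq_mul] at h1
  have h2 : 1 ≤ (Pf H K m).card := card_pos.mpr ⟨0, mom_zero m⟩
  calc _ ≤ 2 * Fintype.card H ^ 2 + ((Pf H K m).card - 1) * Fintype.card H ^ 2 :=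
        add_le_add h0 h1
    _ = (2 + ((Pf H K m).card - 1)) * Fintype.card H ^ 2 := by ring
    _ = ((Pf H K m).card + 1) * Fintype.card H ^ 2 := by
        congr 1
        omega

theorem sum_YY_sq {f : H → K} (hf : IsPlanar f) (m : ℕ) :
    ∑ x : H × K, (YY f m x).card ^ 2 ≤
      (Pf H K m).card * (((Pf H K m).card + 1) * Fintype.card H ^ 2) := by
  set P := Pf H K m with hPdef
  have h1 : ∀ x : H × K, (YY f m x).card ^ 2 = ∑ q : (H × H) × (H × H),
      (if gr f q.1.1 + gr f q.1.2 - x ∈ P ∧ gr f q.2.1 + gr f q.2.2 - x ∈ P then 1 else 0) := by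
    intro x
    unfold YY
    rw [sq, card_filter, sum_mul_sum]
    refine Eq.trans ?_ (Fintype.sum_prod_type _).symm
    · apply sum_congr rfl
      intro a _
      apply sum_congr rfl
      intro b _
      by_cases ha : gr f a.1 + gr f a.2 - x ∈ P
      · by_cases hb : gr f b.1 + gr f b.2 - x ∈ P
        · simp [ha, hb, ← hPdef]
        · simp [ha, hb, ← hPdef]
      · simp [ha, ← hPdef]
  have h2 : ∀ q : (H × H) × (H × H), ∑ x : H × K,
      (if gr f q.1.1 + gr f q.1.2 - x ∈ P ∧ gr f q.2.1 + gr f q.2.2 - x ∈ P then 1 else 0) ≤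
      (if (gr f q.1.1 + gr f q.1.2) - (gr f q.2.1 + gr f q.2.2) ∈ P then P.card else 0) := by
    intro q
    split_ifs with hq
    · rw [← card_filter, ← mom_card_x m (gr f q.1.1 + gr f q.1.2)]
      apply card_le_card
      intro x hx
      exact mem_filter.mpr ⟨mem_univ _, (mem_filter.mp hx).2.1⟩
    · apply le_of_eq
      apply sum_eq_zero
      intro x _
      rw [if_neg]
      rintro ⟨ha, hb⟩
      apply hq
      have := mom_sub ha hb
      have e : gr f q.1.1 + gr f q.1.2 - x - (gr f q.2.1 + gr f q.2.2 - x) =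
        gr f q.1.1 + gr f q.1.2 - (gr f q.2.1 + gr f q.2.2) := by abel
      rwa [e] at this
  calc ∑ x : H × K, (YY f m x).card ^ 2
      = ∑ x : H × K, ∑ q : (H × H) × (H × H),
        (if gr f q.1.1 + gr f q.1.2 - x ∈ P ∧ gr f q.2.1 + gr f q.2.2 - x ∈ P then 1 else 0) :=
        sum_congr rfl (fun x _ => h1 x)
    _ = ∑ q : (H × H) × (H × H), ∑ x : H × K,
        (if gr f q.1.1 + gr f q.1.2 - x ∈ P ∧ gr f q.2.1 + gr f q.2.2 - x ∈ P then 1 else 0) :=
        sum_comm
    _ ≤ ∑ q : (H × H) × (H × H),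
        (if (gr f q.1.1 + gr f q.1.2) - (gr f q.2.1 + gr f q.2.2) ∈ P then P.card else 0) :=
        sum_le_sum (fun q _ => h2 q)
    _ = (univ.filter fun q : (H × H) × (H × H) =>
          (gr f q.1.1 + gr f q.1.2) - (gr f q.2.1 + gr f q.2.2) ∈ P).card * P.card := by
        rw [← sum_filter, sum_const, smul_eq_mul]
    _ ≤ ((P.card + 1) * Fintype.card H ^ 2) * P.card :=
        Nat.mul_le_mul_right _ (mom_quad hf m)
    _ = P.card * ((P.card + 1) * Fintype.card H ^ 2) := Nat.mul_comm _ _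

theorem bad_pairs {f : H → K} (hf : IsPlanar f) (hK : Fintype.card K = Fintype.card H) {m p : ℕ}
    (hp : 0 < p) (hP : (Pf H K m).card = p ^ 2) :
    p ^ 2 * (BP f m p).card ≤ 12 * Fintype.card H ^ 2 := by
  -- invariance of `II`
  have hinv : ∀ x x' : H × K, x - x' ∈ Pf H K m → II f m x' = II f m x := by
    intro x x' hx
    ext ab
    unfold II
    simp only [mem_filter, mem_univ, true_and]
    constructor
    · rintro ⟨h1, h2⟩
      refine ⟨h1, ?_⟩
      have := mom_sub h2 hx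
      have e : gr f ab.1 + gr f ab.2 - x' - (x - x') = gr f ab.1 + gr f ab.2 - x := by abel
      rwa [e] at this
    · rintro ⟨h1, h2⟩
      refine ⟨h1, ?_⟩
      have := mom_add h2 hx
      have e : gr f ab.1 + gr f ab.2 - x + (x - x') = gr f ab.1 + gr f ab.2 - x' := by abel
      rwa [e] at this
  -- the bad pairs as a sum over bad points
  have hcount : p ^ 2 * (BP f m p).card =
      ∑ x ∈ univ.filter (fun x : H × K => 4 * p ^ 2 ≤ 3 * (II f m x).card), (II f m x).card := by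
    have e1 : ∀ x : H × K, (II f m x).card = ∑ ab : H × H,
        (if m • gr f ab.1 ≠ m • gr f ab.2 ∧ gr f ab.1 + gr f ab.2 - x ∈ Pf H K m
          then 1 else 0) := by
      intro x
      unfold II
      rw [card_filter]
    have e2 : ∀ ab : H × H, ∑ x ∈ univ.filter (fun x : H × K => 4 * p ^ 2 ≤ 3 * (II f m x).card),
        (if m • gr f ab.1 ≠ m • gr f ab.2 ∧ gr f ab.1 + gr f ab.2 - x ∈ Pf H K m
          then 1 else 0) =
        (if m • gr f ab.1 ≠ m • gr f ab.2 ∧
          4 * p ^ 2 ≤ 3 * (II f m (gr f ab.1 + gr f ab.2)).card then p ^ 2 else 0) := by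
      intro ab
      by_cases h1 : m • gr f ab.1 ≠ m • gr f ab.2
      · by_cases h2 : 4 * p ^ 2 ≤ 3 * (II f m (gr f ab.1 + gr f ab.2)).card
        · rw [if_pos ⟨h1, h2⟩, ← card_filter, filter_filter]
          have e3 : (univ.filter fun x : H × K => 4 * p ^ 2 ≤ 3 * (II f m x).card ∧
              (m • gr f ab.1 ≠ m • gr f ab.2 ∧ gr f ab.1 + gr f ab.2 - x ∈ Pf H K m)) =
              univ.filter fun x : H × K => gr f ab.1 + gr f ab.2 - x ∈ Pf H K m := by
            ext x
            simp only [mem_filter, mem_univ, true_and]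
            constructor
            · rintro ⟨_, _, h3⟩
              exact h3
            · intro h3
              refine ⟨?_, h1, h3⟩
              rw [hinv _ _ h3]
              exact h2
          rw [e3, mom_card_x, hP]
        · rw [if_neg (fun h => h2 h.2)]
          apply sum_eq_zero
          intro x hx
          rw [if_neg]
          rintro ⟨_, h3⟩
          apply h2
          rw [← hinv _ _ h3]
          exact (mem_filter.mp hx).2
      · rw [if_neg (fun h => h1 h.1)]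
        apply sum_eq_zero
        intro x _
        rw [if_neg (fun h => h1 h.1)]
    calc p ^ 2 * (BP f m p).card = ∑ ab : H × H,
          (if m • gr f ab.1 ≠ m • gr f ab.2 ∧
          4 * p ^ 2 ≤ 3 * (II f m (gr f ab.1 + gr f ab.2)).card then p ^ 2 else 0) := by
          unfold BP
          rw [← sum_filter, sum_const, smul_eq_mul, Nat.mul_comm]
      _ = ∑ ab : H × H, ∑ x ∈ univ.filter (fun x : H × K => 4 * p ^ 2 ≤ 3 * (II f m x).card),
        (if m • gr f ab.1 ≠ m • gr f ab.2 ∧ gr f ab.1 + gr f ab.2 - x ∈ Pf H K m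
          then 1 else 0) := sum_congr rfl (fun ab _ => (e2 ab).symm)
      _ = ∑ x ∈ univ.filter (fun x : H × K => 4 * p ^ 2 ≤ 3 * (II f m x).card), ∑ ab : H × H,
        (if m • gr f ab.1 ≠ m • gr f ab.2 ∧ gr f ab.1 + gr f ab.2 - x ∈ Pf H K m
          then 1 else 0) := sum_comm
      _ = _ := sum_congr rfl (fun x _ => (e1 x).symm)
  -- the second moment
  set q := Fintype.card H with hq
  have hY1 := sum_YY f m
  have hY2 := sum_YY_sq hf m
  rw [hP] at hY1 hY2
  have hY1' : ∑ x : H × K, ((YY f m x).card : ℝ) = (q : ℝ) ^ 2 * (p : ℝ) ^ 2 := by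
    exact_mod_cast hY1
  have hY2' : ∑ x : H × K, ((YY f m x).card : ℝ) ^ 2 ≤
      (p : ℝ) ^ 2 * (((p : ℝ) ^ 2 + 1) * (q : ℝ) ^ 2) := by
    exact_mod_cast hY2
  have hvar : ∑ x : H × K, (((YY f m x).card : ℝ) - (p : ℝ) ^ 2) ^ 2 ≤
      (p : ℝ) ^ 2 * (q : ℝ) ^ 2 := by
    have e : ∀ x : H × K, (((YY f m x).card : ℝ) - (p : ℝ) ^ 2) ^ 2 =
        ((YY f m x).card : ℝ) ^ 2 - 2 * (p : ℝ) ^ 2 * ((YY f m x).card : ℝ) + (p : ℝ) ^ 4 := by
      intro x
      ring
    rw [sum_congr rfl (fun x _ => e x), sum_add_distrib, sum_sub_distrib, ← mul_sum, hY1',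
      sum_const, card_univ, Fintype.card_prod, hK, ← hq, nsmul_eq_mul]
    push_cast
    nlinarith [hY2']
  have hp2 : (0 : ℝ) < (p : ℝ) ^ 2 := by positivity
  have hbad : (p : ℝ) ^ 2 * ∑ x ∈ univ.filter (fun x : H × K => 4 * p ^ 2 ≤ 3 * (II f m x).card),
      ((II f m x).card : ℝ) ≤ 12 * ((p : ℝ) ^ 2 * (q : ℝ) ^ 2) := by
    calc (p : ℝ) ^ 2 * ∑ x ∈ univ.filter (fun x : H × K => 4 * p ^ 2 ≤ 3 * (II f m x).card),
          ((II f m x).card : ℝ)
        = ∑ x ∈ univ.filter (fun x : H × K => 4 * p ^ 2 ≤ 3 * (II f m x).card),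
          (p : ℝ) ^ 2 * ((II f m x).card : ℝ) := mul_sum _ _ _
      _ ≤ ∑ x ∈ univ.filter (fun x : H × K => 4 * p ^ 2 ≤ 3 * (II f m x).card),
          12 * (((YY f m x).card : ℝ) - (p : ℝ) ^ 2) ^ 2 := by
          apply sum_le_sum
          intro x hx
          have h1 := (mem_filter.mp hx).2
          have h1' : 4 * (p : ℝ) ^ 2 ≤ 3 * ((II f m x).card : ℝ) := by exact_mod_cast h1
          have h2 : ((II f m x).card : ℝ) ≤ ((YY f m x).card : ℝ) := by
            have : (II f m x).card ≤ (YY f m x).card := by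
              apply card_le_card
              intro ab hab
              exact mem_filter.mpr ⟨mem_univ _, (mem_filter.mp hab).2.2⟩
            exact_mod_cast this
          have h3 : (p : ℝ) ^ 2 * ((II f m x).card : ℝ) ≤ (p : ℝ) ^ 2 * ((YY f m x).card : ℝ) :=
            mul_le_mul_of_nonneg_left h2 hp2.le
          have h4 : 0 ≤ 3 * ((YY f m x).card : ℝ) - 4 * (p : ℝ) ^ 2 := by linarith
          have h5 : 0 ≤ 4 * ((YY f m x).card : ℝ) - 3 * (p : ℝ) ^ 2 := by linarith
          nlinarith [mul_nonneg h4 h5]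
      _ ≤ ∑ x : H × K, 12 * (((YY f m x).card : ℝ) - (p : ℝ) ^ 2) ^ 2 :=
          sum_le_sum_of_subset_of_nonneg (filter_subset _ _) (fun _ _ _ => by positivity)
      _ = 12 * ∑ x : H × K, (((YY f m x).card : ℝ) - (p : ℝ) ^ 2) ^ 2 := (mul_sum _ _ _).symm
      _ ≤ 12 * ((p : ℝ) ^ 2 * (q : ℝ) ^ 2) := mul_le_mul_of_nonneg_left hvar (by norm_num)
  have hfin : ∑ x ∈ univ.filter (fun x : H × K => 4 * p ^ 2 ≤ 3 * (II f m x).card),
      ((II f m x).card : ℝ) ≤ 12 * (q : ℝ) ^ 2 := by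
    have h1 : (p : ℝ) ^ 2 * ∑ x ∈ univ.filter
        (fun x : H × K => 4 * p ^ 2 ≤ 3 * (II f m x).card), ((II f m x).card : ℝ) ≤
        (p : ℝ) ^ 2 * (12 * (q : ℝ) ^ 2) := by linarith
    exact le_of_mul_le_mul_left h1 hp2
  rw [hcount]
  exact_mod_cast hfin

end Pool.Agent.H16.PF3
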