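import Pool.Agent.H16.PF3.Transfer
import Pool.Agent.H16.PF3.Mom
import Pool.Agent.H16.PF3.VSum
import Pool.Agent.H16.PF3.Low

/-!
# PF3 Final
-/

set_option autoImplicit false

namespace Pool.Agent.H16.PF3

open Finset Pool.Agent.H88.Pl

theorem no_rank_two {p : ℕ} [Fact p.Prime] (hp : 5 ≤ p) {r e : ℕ} (hr : 4 ≤ r) (he : 2 ≤ e)
    {H K : Type*} [AddCommGroup H] [AddCommGroup K] [Fintype H] [Fintype K] [DecidableEq H]
    [DecidableEq K] (hH : Fintype.card H = p ^ r) (hK : Fintype.card K = p ^ r) {f : H → K}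
    (hf : IsPlanar f) (hexp : ∀ g : H × K, p ^ e • g = 0)
    (hP : (Pf H K (p ^ (e - 1))).card = p ^ 2) : False := by
  have hp2 : p ≠ 2 := by omega
  have hp0 : 0 < p := by omega
  obtain ⟨m, hm⟩ : ∃ m, m = p ^ (e - 1) := ⟨_, rfl⟩
  have hpm : ∀ g : H × K, p • m • g = 0 := by
    intro g
    rw [hm, ← mul_smul, ← pow_succ', show e - 1 + 1 = e by omega]
    exact hexp g
  have hKH : Fintype.card K = Fintype.card H := by rw [hH, hK]
  have hN : ∀ a b : H, m • gr f a ≠ m • gr f b → (a, b) ∉ BP f m p →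
      (NN f m a b).card = p := by
    intro a b hab hbp
    rw [hm]
    refine good_pairs hp2 he hH hf hexp hP (by rw [← hm]; exact hab) ?_
    rw [← hm]
    by_contra hcon
    apply hbp
    unfold BP
    rw [mem_filter]
    exact ⟨mem_univ _, hab, not_lt.1 hcon⟩
  rw [← hm] at hP
  have hV := V_sum (p := p) f m hpm (fun a b c d h => sidon hf h) hN
  -- abbreviations
  obtain ⟨q, hq⟩ : ∃ q : ℝ, q = (Fintype.card H : ℝ) := ⟨_, rfl⟩
  have hG : (Fintype.card (H × K) : ℝ) = q ^ 2 := by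
    rw [Fintype.card_prod, hKH, hq]; push_cast; ring
  have hpR : (5 : ℝ) ≤ p := by exact_mod_cast hp
  have hq4 : (p : ℝ) ^ 4 ≤ q := by
    rw [hq, hH]
    push_cast
    exact pow_le_pow_right₀ (by linarith) hr
  have hq0 : 0 < q := lt_of_lt_of_le (by positivity) hq4
  let V : AddChar (H × K) ℂ → ℝ := fun χ => ∑ w ∈ Pf H K m, ∑ w' ∈ Pf H K m,
      (if χ w = χ w' then 0 else ‖us f m χ w‖ ^ 2 * ‖us f m χ w'‖ ^ 2)
  let B : AddChar (H × K) ℂ → ℝ := fun χ => ∑ w ∈ Pf H K m, ‖us f m χ w‖ ^ 4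
  have hV0 : ∀ χ, 0 ≤ V χ := by
    intro χ
    refine sum_nonneg fun w _ => sum_nonneg fun w' _ => ?_
    split_ifs
    · exact le_rfl
    · positivity
  have hB0 : ∀ χ, 0 ≤ B χ := fun χ => sum_nonneg fun w _ => by positivity
  -- the good characters
  let S1 : Finset (AddChar (H × K) ℂ) := univ.filter fun χ => ∀ w ∈ Pf H K m, χ w = 1
  let S2 : Finset (AddChar (H × K) ℂ) :=
    univ.filter fun χ => ∀ k : K, m • k = 0 → χ ((0 : H), k) = 1
  let S : Finset (AddChar (H × K) ℂ) := univ.filter fun χ => χ ∉ S1 ∧ χ ∉ S2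
  have hgood : ∀ χ ∈ S, q ^ 2 ≤ V χ + p * B χ := by
    intro χ hχ
    have h1 := (mem_filter.1 hχ).2
    have h2 : ∃ w ∈ Pf H K m, χ w ≠ 1 := by
      by_contra hcon
      push Not at hcon
      exact h1.1 (mem_filter.2 ⟨mem_univ _, hcon⟩)
    have h3 : ∃ k : K, m • k = 0 ∧ χ ((0 : H), k) ≠ 1 := by
      by_contra hcon
      push Not at hcon
      exact h1.2 (mem_filter.2 ⟨mem_univ _, hcon⟩)
    have h4 := key f m hpm hP χ h2
    rw [second hf m χ h3, ← hq] at h4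
    exact h4
  have hcardS : q ^ 2 ≤ (S.card : ℝ) + S1.card + S2.card := by
    have h1 : Fintype.card (AddChar (H × K) ℂ) ≤ S.card + S1.card + S2.card := by
      rw [← card_univ]
      have h2 : (univ : Finset (AddChar (H × K) ℂ)) ⊆ (S ∪ S1) ∪ S2 := by
        intro χ _
        by_cases a1 : χ ∈ S1
        · simp [a1]
        · by_cases a2 : χ ∈ S2
          · simp [a2]
          · have : χ ∈ S := mem_filter.2 ⟨mem_univ _, a1, a2⟩
            simp [this]
      refine (card_le_card h2).trans ((card_union_le _ _).trans ?_)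
      exact Nat.add_le_add_right (card_union_le _ _) _
    have h2 : (Fintype.card (AddChar (H × K) ℂ) : ℝ) = q ^ 2 := by
      rw [AddChar.card_eq, hG]
    rw [← h2]
    exact_mod_cast h1
  have hS1 : (p : ℝ) ^ 2 * S1.card = q ^ 2 := by
    have h1 := card_triv_P (H := H) (K := K) m
    rw [hP] at h1
    rw [← hG]
    exact_mod_cast h1
  have hS2 : q * (S2.card : ℝ) ≤ p ^ 2 * q ^ 2 := by
    have h1 := card_triv_ker (H := H) (K := K) m
    rw [hP, hKH] at h1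
    rw [← hG, hq]
    exact_mod_cast h1
  -- the fourth moments
  have hB : ∑ χ, B χ ≤ q ^ 2 * (2 * (q + q ^ 2 / p ^ 2) - q) := by
    change ∑ χ : AddChar (H × K) ℂ, ∑ w ∈ Pf H K m, ‖us f m χ w‖ ^ 4 ≤ _
    rw [sum_comm]
    have h1 : ∀ w ∈ Pf H K m, ∑ χ : AddChar (H × K) ℂ, ‖us f m χ w‖ ^ 4 ≤
        q ^ 2 * (2 * ((univ.filter fun h : H => m • gr f h = w).card : ℝ) ^ 2 -
          (univ.filter fun h : H => m • gr f h = w).card) := by
      intro w _
      rw [← hG]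
      exact ta_fourth f hf _
    refine (sum_le_sum h1).trans ?_
    rw [← mul_sum, sum_sub_distrib, ← mul_sum]
    have h2 : ∑ w ∈ Pf H K m, ((univ.filter fun h : H => m • gr f h = w).card : ℝ) = q := by
      have h3 : (univ : Finset H).card =
          ∑ w ∈ Pf H K m, (univ.filter fun h : H => m • gr f h = w).card := by
        refine card_eq_sum_card_fiberwise fun h _ => ?_
        exact mem_coe.2 (mem_image_of_mem _ (mem_univ _))
      rw [hq, ← card_univ, h3]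
      push_cast
      rfl
    have h3 : ∑ w ∈ Pf H K m, ((univ.filter fun h : H => m • gr f h = w).card : ℝ) ^ 2 ≤
        q + q ^ 2 / p ^ 2 := by
      have h4 := sum_slices_sq hf m
      rw [hP] at h4
      have h5 : (p : ℝ) ^ 2 * ∑ w ∈ Pf H K m,
          ((univ.filter fun h : H => m • gr f h = w).card : ℝ) ^ 2 ≤ p ^ 2 * q + q ^ 2 := by
        rw [← hG, hq]
        exact_mod_cast h4
      have h6 : q + q ^ 2 / p ^ 2 = (p ^ 2 * q + q ^ 2) / (p : ℝ) ^ 2 := by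
        field_simp
      rw [h6, le_div_iff₀ (by positivity), mul_comm]
      exact h5
    rw [h2]
    exact mul_le_mul_of_nonneg_left (by linarith) (by positivity)
  -- the bad pairs
  have hBP : (p : ℝ) ^ 2 * (BP f m p).card ≤ 12 * q ^ 2 := by
    have h1 := bad_pairs hf hKH hp0 hP
    rw [hq]
    exact_mod_cast h1
  -- sum
  have hsum : (S.card : ℝ) * q ^ 2 ≤ q ^ 2 * (BP f m p).card +
      p * (q ^ 2 * (2 * (q + q ^ 2 / p ^ 2) - q)) := by
    have h1 : ∑ χ ∈ S, q ^ 2 ≤ ∑ χ ∈ S, (V χ + p * B χ) := sum_le_sum hgood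
    rw [sum_const, nsmul_eq_mul] at h1
    have h2 : ∑ χ ∈ S, (V χ + p * B χ) ≤ ∑ χ, (V χ + p * B χ) :=
      sum_le_univ_sum_of_nonneg fun χ => add_nonneg (hV0 χ) (mul_nonneg (by linarith) (hB0 χ))
    have h2' : ∑ χ, (V χ + p * B χ) = ∑ χ, V χ + p * ∑ χ, B χ := by
      rw [sum_add_distrib, ← mul_sum]
    rw [h2'] at h2
    have h3 : ∑ χ, V χ ≤ q ^ 2 * (BP f m p).card := by
      rw [← hG]; exact hV
    have h4 : (p : ℝ) * ∑ χ, B χ ≤ p * (q ^ 2 * (2 * (q + q ^ 2 / p ^ 2) - q)) :=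
      mul_le_mul_of_nonneg_left hB (by linarith)
    linarith
  have hpp : (0 : ℝ) < p := by linarith
  have hsum' : (S.card : ℝ) ≤ (BP f m p).card + p * (q + 2 * q ^ 2 / p ^ 2) := by
    have h1 : q ^ 2 * (S.card : ℝ) ≤ q ^ 2 * ((BP f m p).card + p * (q + 2 * q ^ 2 / p ^ 2)) := by
      calc q ^ 2 * (S.card : ℝ) = S.card * q ^ 2 := mul_comm _ _
        _ ≤ _ := hsum
        _ = _ := by ring
    exact le_of_mul_le_mul_left h1 (by positivity)
  have hS2' : (S2.card : ℝ) ≤ p ^ 2 * q := by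
    have h1 : q * (S2.card : ℝ) ≤ q * (p ^ 2 * q) := by
      calc q * (S2.card : ℝ) ≤ p ^ 2 * q ^ 2 := hS2
        _ = _ := by ring
    exact le_of_mul_le_mul_left h1 hq0
  -- multiply by `p ^ 2`
  have h1 : (p : ℝ) ^ 2 * q ^ 2 ≤ 12 * q ^ 2 + (p ^ 3 * q + 2 * p * q ^ 2) + q ^ 2 +
      p ^ 4 * q := by
    have e1 : (p : ℝ) ^ 2 * q ^ 2 ≤ p ^ 2 * (S.card + S1.card + S2.card) :=
      mul_le_mul_of_nonneg_left hcardS (by positivity)
    have e2 : (p : ℝ) ^ 2 * S.card ≤ p ^ 2 * ((BP f m p).card + p * (q + 2 * q ^ 2 / p ^ 2)) :=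
      mul_le_mul_of_nonneg_left hsum' (by positivity)
    have e3 : (p : ℝ) ^ 2 * ((BP f m p).card + p * (q + 2 * q ^ 2 / p ^ 2)) =
        p ^ 2 * (BP f m p).card + (p ^ 3 * q + 2 * p * q ^ 2) := by
      field_simp
    have e4 : (p : ℝ) ^ 2 * S2.card ≤ p ^ 2 * (p ^ 2 * q) :=
      mul_le_mul_of_nonneg_left hS2' (by positivity)
    have e5 : (p : ℝ) ^ 2 * (p ^ 2 * q) = p ^ 4 * q := by ring
    linarith
  have h2 : q * (p ^ 2 - 2 * p - 13) ≤ p ^ 3 + (p : ℝ) ^ 4 := by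
    have e1 : q * (q * (p ^ 2 - 2 * p - 13)) ≤ q * (p ^ 3 + (p : ℝ) ^ 4) := by nlinarith
    exact le_of_mul_le_mul_left e1 hq0
  have h3 : (2 : ℝ) ≤ p ^ 2 - 2 * p - 13 := by nlinarith
  have h4 : (p : ℝ) ^ 4 * (p ^ 2 - 2 * p - 13) ≤ q * (p ^ 2 - 2 * p - 13) :=
    mul_le_mul_of_nonneg_right hq4 (by linarith)
  have h5 : (p : ℝ) ^ 4 * 2 ≤ (p : ℝ) ^ 4 * (p ^ 2 - 2 * p - 13) :=
    mul_le_mul_of_nonneg_left h3 (by positivity)
  have h6 : (p : ℝ) ^ 4 = p * p ^ 3 := by ring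
  have h7 : 0 < (p : ℝ) ^ 3 := by positivity
  nlinarith

end Pool.Agent.H16.PF3
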