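import Pool.Agent.H16.PF3.Defs

/-!
# PF3 Ident: the group ring identity `R^(1+km) R^(1-km) = R^2`

`m = p ^ (e - 1)`, `g x = gr f x`.  PROOF of `ident_char`.  The left side is
`(∑_a χ(g a + k m g a)) (∑_b χ(g b - k m g b))`.
(1) `χ` trivial on `0 × K`: `χ (h, y) = η h` with `η h = χ (h, 0)`.  If `η` is trivial both sides are `|H|²`.  Otherwise the right side is
`(∑ η)² = 0` and the first factor of the left side is `∑_a η ((1 + k m) • a) = ∑_a η a = 0`, as `a ↦ (1 + k m) • a` is a bijection of `H` (`1 + k m`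
is prime to `p`, every element is killed by `p ^ e`; injective: if `(1 + k m) • a = 0` then the order of `a` divides `p ^ e` and `1 + k m`).
(2) `χ` nontrivial on `0 × K`: let `ξ` be a primitive `p ^ e`-th root of unity; `χ (g x) ^ (p ^ e) = 1`, so `χ (g x) = ξ ^ (a x)` with `a x : ℕ`
(`IsPrimitiveRoot.eq_pow_of_pow_eq_one`).  For every primitive `ξ'` one has `‖∑ x, ξ' ^ a x‖² = p ^ r`: `ξ' = ξ ^ t` with `t` prime to `p`, so the sum is
`∑ x, (χ ^ t) (g x)` and `χ ^ t` is nontrivial on `0 × K` (`ta_second`; compare the proof of `ta_slice` in Pool/Agent/H88/Pl/TA.lean, where exactly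
this is done).  By `arith` there are `ε = ± 1`, `j` with `∑ x, ξ' ^ a x = ε ξ' ^ j gs(ξ' ^ m) ^ r` for all primitive `ξ'`.  Apply it to `ξ`,
`ξ₁ = ξ ^ (1 + k m)` and `ξ₂ = ξ ^ (1 + k' m)`, where `k' = (p - 1) k` (so `ξ ^ (k m) ξ ^ (k' m) = ξ ^ (p k m) = 1`, and
`χ (g b - k m g b) = ξ₂ ^ a b`).  `ξ₁ ^ m = ξ₂ ^ m = ξ ^ m`, as `p ^ e ∣ m * m` (`e ≥ 2`), and `ξ₁ ^ j ξ₂ ^ j = ξ ^ (2 j)`.  So the product is
`ε² ξ ^ (2 j) gs ^ (2 r)`, the square of the sum for `ξ`, which is the right side.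
`ident`: both sides have the same Fourier transform: multiply `ident_char` by `χ (-x)`, sum over all `χ`
(`AddChar.sum_apply_eq_ite`): `|G| * (number of pairs)` on both sides.
-/

set_option autoImplicit false

namespace Pool.Agent.H16.PF3

open Finset Pool.Agent.H88.Pl

variable {p : ℕ} [Fact p.Prime] {r e : ℕ} {H K : Type*} [AddCommGroup H] [AddCommGroup K]
  [Fintype H] [Fintype K]

private theorem ident_cop (p e k : ℕ) [Fact p.Prime] (he : 2 ≤ e) (n : ℕ) :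
    Nat.Coprime (p ^ n) (1 + k * p ^ (e - 1)) := by
  have hpp : p.Prime := Fact.out
  apply Nat.Coprime.pow_left
  rw [hpp.coprime_iff_not_dvd]
  have h1 : p ∣ k * p ^ (e - 1) := Dvd.dvd.mul_left (dvd_pow_self p (by omega)) k
  intro h2
  have : p ∣ 1 := (Nat.dvd_add_left h1).mp h2
  exact hpp.one_lt.ne' (Nat.dvd_one.mp this)

/-- the value of the sum for the exponent `1 + k m` -/
private theorem ident_val (hp : p ≠ 2) (he : 2 ≤ e) (hH : Fintype.card H = p ^ r) (f : H → K)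
    (hf : IsPlanar f) (hexp : ∀ g : H × K, p ^ e • g = 0) (χ : AddChar (H × K) ℂ)
    (hK : ∃ k : K, χ ((0 : H), k) ≠ 1) :
    ∃ ξ c : ℂ, IsPrimitiveRoot ξ (p ^ e) ∧ ∃ j : ℕ, ∀ k : ℕ,
      ∑ x, χ ((1 + k * p ^ (e - 1)) • gr f x) = c * (ξ ^ (1 + k * p ^ (e - 1))) ^ j := by
  have hpp : p.Prime := Fact.out
  have hpe0 : p ^ e ≠ 0 := pow_ne_zero e hpp.ne_zero
  have hξ : IsPrimitiveRoot (Complex.exp (2 * Real.pi * Complex.I / (p ^ e : ℕ))) (p ^ e) :=
    Complex.isPrimitiveRoot_exp _ hpe0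
  obtain ⟨ξ, hξd⟩ : ∃ ξ, ξ = Complex.exp (2 * Real.pi * Complex.I / (p ^ e : ℕ)) := ⟨_, rfl⟩
  rw [← hξd] at hξ
  have : NeZero (p ^ e) := ⟨hpe0⟩
  have hval : ∀ g : H × K, χ g ^ (p ^ e) = 1 := by
    intro g
    rw [← AddChar.map_nsmul_eq_pow, hexp, AddChar.map_zero_eq_one]
  have hex : ∀ x : H, ∃ i : ℕ, ξ ^ i = χ (x, f x) := by
    intro x
    obtain ⟨i, _, hi⟩ := hξ.eq_pow_of_pow_eq_one (hval (x, f x))
    exact ⟨i, hi⟩
  choose a ha using hex
  have hmom : ∀ ξ' : ℂ, IsPrimitiveRoot ξ' (p ^ e) → ‖∑ x, ξ' ^ a x‖ ^ 2 = (p : ℝ) ^ r := by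
    intro ξ' hξ'
    obtain ⟨t, _, htc, ht⟩ := (hξ.isPrimitiveRoot_iff).mp hξ'
    have h1 : ∑ x, ξ' ^ a x = ∑ x, (χ ^ t) (x, f x) := by
      refine Finset.sum_congr rfl fun x _ => ?_
      rw [AddChar.pow_apply, ← ha x, ← ht, ← pow_mul, ← pow_mul, mul_comm]
    rw [h1, ta_second f hf (χ ^ t), hH]
    · push_cast; rfl
    · obtain ⟨k, hk⟩ := hK
      refine ⟨k, ?_⟩
      rw [AddChar.pow_apply]
      intro h2
      apply hk
      have h3 : orderOf (χ ((0 : H), k)) ∣ t := orderOf_dvd_of_pow_eq_one h2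
      have h4 : orderOf (χ ((0 : H), k)) ∣ p ^ e := orderOf_dvd_of_pow_eq_one (hval _)
      have h5 : orderOf (χ ((0 : H), k)) ∣ 1 := by
        rw [← Nat.Coprime.gcd_eq_one htc]
        exact Nat.dvd_gcd h3 h4
      exact orderOf_eq_one_iff.mp (Nat.dvd_one.mp h5)
  obtain ⟨ε, j, _, hj⟩ := arith hp (by omega : 1 ≤ e) r a hmom
  refine ⟨ξ, (ε : ℂ) * gs p (ξ ^ (p ^ (e - 1))) ^ r, hξ, j, fun k => ?_⟩
  have hprim : IsPrimitiveRoot (ξ ^ (1 + k * p ^ (e - 1))) (p ^ e) :=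
    hξ.pow_of_coprime _ (Nat.coprime_comm.mp (ident_cop p e k he e))
  have h1 := hj _ hprim
  have hmm : (ξ ^ (1 + k * p ^ (e - 1))) ^ (p ^ (e - 1)) = ξ ^ (p ^ (e - 1)) := by
    rw [← pow_mul, add_mul, one_mul, pow_add]
    have hd : p ^ e ∣ k * p ^ (e - 1) * p ^ (e - 1) := by
      rw [mul_assoc, ← pow_add]
      exact Dvd.dvd.mul_left (pow_dvd_pow p (by omega)) k
    rw [(hξ.pow_eq_one_iff_dvd _).mpr hd, mul_one]
  rw [hmm] at h1
  have h2 : ∑ x, χ ((1 + k * p ^ (e - 1)) • gr f x) = ∑ x, (ξ ^ (1 + k * p ^ (e - 1))) ^ a x := by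
    refine Finset.sum_congr rfl fun x _ => ?_
    rw [AddChar.map_nsmul_eq_pow, gr, ← ha x, ← pow_mul, ← pow_mul, mul_comm]
  rw [h2, h1]
  ring

omit [Fintype H] [Fintype K] in
private theorem ident_split (he : 2 ≤ e) (hexp : ∀ g : H × K, p ^ e • g = 0) (k : ℕ) (u v : H × K) :
    u + v + k • (p ^ (e - 1) • (u - v)) =
      (1 + k * p ^ (e - 1)) • u + (1 + (p - 1) * k * p ^ (e - 1)) • v := by
  have hpp : p.Prime := Fact.out
  have h1 : ((p - 1) * k * p ^ (e - 1)) • v + (k * p ^ (e - 1)) • v = 0 := by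
    rw [← add_nsmul]
    have : (p - 1) * k * p ^ (e - 1) + k * p ^ (e - 1) = k * p ^ e := by
      have hpe : p ^ e = p * p ^ (e - 1) := by
        rw [← pow_succ']; congr 1; omega
      have hp1 : (p - 1) + 1 = p := Nat.sub_add_cancel hpp.one_lt.le
      calc (p - 1) * k * p ^ (e - 1) + k * p ^ (e - 1) = ((p - 1) + 1) * (k * p ^ (e - 1)) := by ring
        _ = k * p ^ e := by rw [hp1, hpe]; ring
    rw [this, mul_nsmul', hexp, nsmul_zero]
  have h2 : ((p - 1) * k * p ^ (e - 1)) • v = -((k * p ^ (e - 1)) • v) := eq_neg_of_add_eq_zero_left h1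
  rw [add_nsmul, add_nsmul, one_nsmul, one_nsmul, h2, ← mul_nsmul', nsmul_sub]
  abel

theorem ident_char (hp : p ≠ 2) (he : 2 ≤ e) (hH : Fintype.card H = p ^ r) (f : H → K)
    (hf : IsPlanar f) (hexp : ∀ g : H × K, p ^ e • g = 0) (k : ℕ) (χ : AddChar (H × K) ℂ) :
    ∑ ab : H × H, χ (gr f ab.1 + gr f ab.2 + k • (p ^ (e - 1) • (gr f ab.1 - gr f ab.2))) =
      ∑ ab : H × H, χ (gr f ab.1 + gr f ab.2) := by
  have hpp : p.Prime := Fact.out
  have hL : ∑ ab : H × H, χ (gr f ab.1 + gr f ab.2 + k • (p ^ (e - 1) • (gr f ab.1 - gr f ab.2))) =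
      (∑ x, χ ((1 + k * p ^ (e - 1)) • gr f x)) * ∑ y, χ ((1 + (p - 1) * k * p ^ (e - 1)) • gr f y) := by
    rw [Finset.sum_mul_sum, Fintype.sum_prod_type]
    refine Finset.sum_congr rfl fun x _ => Finset.sum_congr rfl fun y _ => ?_
    rw [ident_split he hexp, AddChar.map_add_eq_mul]
  have hR : ∑ ab : H × H, χ (gr f ab.1 + gr f ab.2) = (∑ x, χ (gr f x)) * ∑ y, χ (gr f y) := by
    rw [Finset.sum_mul_sum, Fintype.sum_prod_type]
    refine Finset.sum_congr rfl fun x _ => Finset.sum_congr rfl fun y _ => ?_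
    rw [AddChar.map_add_eq_mul]
  rw [hL, hR]
  by_cases hK : ∃ y : K, χ ((0 : H), y) ≠ 1
  · obtain ⟨ξ, c, hξ, j, hj⟩ := ident_val hp he hH f hf hexp χ hK
    have h0 := hj 0
    simp only [Nat.zero_mul, add_zero, one_nsmul, pow_one] at h0
    rw [hj k, hj ((p - 1) * k), h0]
    have h1 : ξ ^ (1 + k * p ^ (e - 1)) * ξ ^ (1 + (p - 1) * k * p ^ (e - 1)) = ξ * ξ := by
      rw [← pow_add]
      have h2 : 1 + k * p ^ (e - 1) + (1 + (p - 1) * k * p ^ (e - 1)) = 2 + k * p ^ e := by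
        have hpe : p ^ e = p * p ^ (e - 1) := by
          rw [← pow_succ']; congr 1; omega
        have hp1 : (p - 1) + 1 = p := Nat.sub_add_cancel hpp.one_lt.le
        calc 1 + k * p ^ (e - 1) + (1 + (p - 1) * k * p ^ (e - 1)) =
            2 + ((p - 1) + 1) * (k * p ^ (e - 1)) := by ring
          _ = 2 + k * p ^ e := by rw [hp1, hpe]; ring
      rw [h2, pow_add, mul_comm k, pow_mul, hξ.pow_eq_one, one_pow, mul_one, sq]
    calc c * (ξ ^ (1 + k * p ^ (e - 1))) ^ j * (c * (ξ ^ (1 + (p - 1) * k * p ^ (e - 1))) ^ j) =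
        c * c * (ξ ^ (1 + k * p ^ (e - 1)) * ξ ^ (1 + (p - 1) * k * p ^ (e - 1))) ^ j := by
          rw [mul_pow]; ring
      _ = c * ξ ^ j * (c * ξ ^ j) := by rw [h1, mul_pow]; ring
  · push Not at hK
    have hη : ∀ g : H × K, χ g = (χ.compAddMonoidHom (AddMonoidHom.inl H K)) g.1 := by
      intro g
      have h1 : g = (g.1, 0) + (0, g.2) := by ext <;> simp
      conv_lhs => rw [h1, AddChar.map_add_eq_mul, hK, mul_one]
      simp
    by_cases h0 : χ.compAddMonoidHom (AddMonoidHom.inl H K) = 0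
    · have h1 : ∀ g : H × K, χ g = 1 := by
        intro g
        rw [hη, h0]
        simp
      simp only [h1]
    · have h2 := AddChar.sum_eq_zero_of_ne_one h0
      have h3 : ∑ x, χ (gr f x) = 0 := by
        rw [← h2]
        exact Finset.sum_congr rfl fun x _ => hη _
      have h4 : ∑ x, χ ((1 + k * p ^ (e - 1)) • gr f x) = 0 := by
        rw [← h2]
        have hcop : (Nat.card H).Coprime (1 + k * p ^ (e - 1)) := by
          rw [Nat.card_eq_fintype_card, hH]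
          exact ident_cop p e k he r
        rw [← Equiv.sum_comp (nsmulCoprime hcop)
          (fun a => (χ.compAddMonoidHom (AddMonoidHom.inl H K)) a)]
        refine Finset.sum_congr rfl fun x _ => ?_
        rw [hη]
        rfl
      rw [h3, h4, zero_mul, zero_mul]

private theorem ident_count [DecidableEq H] [DecidableEq K] (F : H × H → H × K) (x : H × K) :
    ∑ χ : AddChar (H × K) ℂ, χ (-x) * ∑ ab : H × H, χ (F ab) =
      (Fintype.card (H × K) : ℂ) * ((univ.filter fun ab : H × H => F ab = x).card : ℂ) := by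
  have h1 : ∑ χ : AddChar (H × K) ℂ, χ (-x) * ∑ ab : H × H, χ (F ab) =
      ∑ ab : H × H, ∑ χ : AddChar (H × K) ℂ, χ (F ab - x) := by
    rw [Finset.sum_comm]
    refine Finset.sum_congr rfl fun χ _ => ?_
    rw [Finset.mul_sum]
    refine Finset.sum_congr rfl fun ab _ => ?_
    rw [← AddChar.map_add_eq_mul, neg_add_eq_sub]
  rw [h1]
  have h2 : ∀ ab : H × H, ∑ χ : AddChar (H × K) ℂ, χ (F ab - x) =
      if F ab = x then (Fintype.card (H × K) : ℂ) else 0 := by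
    intro ab
    rw [AddChar.sum_apply_eq_ite]
    simp only [sub_eq_zero]
  rw [Finset.sum_congr rfl fun ab _ => h2 ab, ← Finset.sum_filter, Finset.sum_const, nsmul_eq_mul]
  ring

theorem ident [DecidableEq H] [DecidableEq K] (hp : p ≠ 2) (he : 2 ≤ e)
    (hH : Fintype.card H = p ^ r) (f : H → K) (hf : IsPlanar f)
    (hexp : ∀ g : H × K, p ^ e • g = 0) (k : ℕ) (x : H × K) :
    (univ.filter fun ab : H × H =>
      gr f ab.1 + gr f ab.2 + k • (p ^ (e - 1) • (gr f ab.1 - gr f ab.2)) = x).card =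
    (univ.filter fun ab : H × H => gr f ab.1 + gr f ab.2 = x).card := by
  have h1 := ident_count (fun ab : H × H =>
    gr f ab.1 + gr f ab.2 + k • (p ^ (e - 1) • (gr f ab.1 - gr f ab.2))) x
  have h2 := ident_count (fun ab : H × H => gr f ab.1 + gr f ab.2) x
  have h3 : ∑ χ : AddChar (H × K) ℂ, χ (-x) * ∑ ab : H × H,
      χ (gr f ab.1 + gr f ab.2 + k • (p ^ (e - 1) • (gr f ab.1 - gr f ab.2))) =
      ∑ χ : AddChar (H × K) ℂ, χ (-x) * ∑ ab : H × H, χ (gr f ab.1 + gr f ab.2) :=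
    Finset.sum_congr rfl fun χ _ => by rw [ident_char hp he hH f hf hexp k χ]
  rw [h1, h2] at h3
  have hne : (Fintype.card (H × K) : ℂ) ≠ 0 := Nat.cast_ne_zero.mpr Fintype.card_ne_zero
  have h4 := mul_left_cancel₀ hne h3
  exact_mod_cast h4

end Pool.Agent.H16.PF3
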