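import Pool.Agent.H16.PF3.Final

/-!
# PF3 Main: at least three largest cyclic factors
-/

set_option autoImplicit false

namespace Pool.Agent.H16.PF3

open Finset Pool.Agent.H88.Pl

/-- If a planar function `H → K` exists, with `|H| = |K| = p ^ r`, `p ≥ 5`, `r ≥ 3`, and
`exp (H × K) = p ^ e`, `e ≥ 2`, then `p ^ (e - 1) (H × K)` has at least `p ^ 3` elements. -/
theorem main_B {p : ℕ} [Fact p.Prime] (hp5 : 5 ≤ p) {r e : ℕ} (hr : 3 ≤ r) (he : 2 ≤ e)
    {H K : Type*} [AddCommGroup H] [AddCommGroup K] (hH : Nat.card H = p ^ r)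
    (hK : Nat.card K = p ^ r) (f : H → K) (hf : IsPlanar f)
    (hexp : AddMonoid.exponent (H × K) = p ^ e) :
    p ^ 3 ≤ Nat.card (Set.range fun g : H × K => p ^ (e - 1) • g) := by
  classical
  have hpp := (Fact.out : p.Prime)
  have : Finite H := Nat.finite_of_card_ne_zero (by rw [hH]; exact (pow_pos hpp.pos r).ne')
  have : Finite K := Nat.finite_of_card_ne_zero (by rw [hK]; exact (pow_pos hpp.pos r).ne')
  have hA := main_A he hH hK f hf hexp
  by_contra hcon
  push Not at hcon
  set φ : H × K →+ H × K := nsmulAddMonoidHom (p ^ (e - 1)) with hφ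
  have hrange : (Set.range fun g : H × K => p ^ (e - 1) • g) = (φ.range : Set (H × K)) := by
    rw [AddMonoidHom.coe_range]
    rfl
  have hkill : ∀ g : H × K, p ^ e • g = 0 := by
    intro g
    rw [← hexp]
    exact AddMonoid.exponent_nsmul_eq_zero g
  have hpe : p ^ e = p * p ^ (e - 1) := by
    rw [← pow_succ']; congr 1; omega
  have hkill' : ∀ x : φ.range, p • x = 0 := by
    rintro ⟨x, g, rfl⟩
    apply Subtype.ext
    rw [AddSubgroup.coe_nsmul, hφ]
    simp only [nsmulAddMonoidHom_apply, ZeroMemClass.coe_zero]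
    rw [← mul_smul, ← hpe]
    exact hkill g
  have hcard : Nat.card φ.range = p ^ 2 := by
    have h1 : IsPGroup p (Multiplicative φ.range) := by
      intro x
      refine ⟨1, ?_⟩
      rw [pow_one]
      exact hkill' x
    obtain ⟨n, hn⟩ := (IsPGroup.iff_card (p := p)).1 h1
    have hn' : Nat.card φ.range = p ^ n := hn
    rw [hrange] at hA hcon
    have h3 : Nat.card φ.range < p ^ 3 := hcon
    have h2 : p ^ 2 ≤ Nat.card φ.range := hA
    rw [hn', Nat.pow_lt_pow_iff_right hpp.one_lt] at h3
    rw [hn', Nat.pow_le_pow_iff_right hpp.one_lt] at h2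
    have h5 : n = 2 := by omega
    rw [hn', h5]
  rcases Nat.lt_or_ge r 4 with hr4 | hr4
  · -- the case `r = 3`
    have hr3 : r = 3 := by omega
    subst hr3
    obtain ⟨⟨a⟩, ⟨b⟩⟩ := main_three hH f hf
    have h1 : ∀ g : H × K, p • g = 0 := by
      intro g
      refine Prod.ext ?_ ?_
      · apply a.injective
        rw [Prod.smul_fst, map_nsmul, Prod.fst_zero, map_zero]
        funext i
        simp
      · apply b.injective
        rw [Prod.smul_snd, map_nsmul, Prod.snd_zero, map_zero]
        funext i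
        simp
    have h2 := AddMonoid.exponent_dvd_of_forall_nsmul_eq_zero h1
    rw [hexp] at h2
    have h3 : p ^ e ∣ p ^ 1 := by rw [pow_one]; exact h2
    rw [Nat.pow_dvd_pow_iff_le_right hpp.one_lt] at h3
    omega
  · have : Fintype H := Fintype.ofFinite H
    have : Fintype K := Fintype.ofFinite K
    have hP : (Pf H K (p ^ (e - 1))).card = p ^ 2 := by
      rw [← hcard]
      have h1 : ((Pf H K (p ^ (e - 1)) : Finset (H × K)) : Set (H × K)) =
          (φ.range : Set (H × K)) := by
        rw [← hrange]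
        unfold Pf
        ext x
        simp
      rw [← Set.ncard_coe_finset, h1]
      rfl
    exact no_rank_two hp5 hr4 he (by rw [← Nat.card_eq_fintype_card]; exact hH)
      (by rw [← Nat.card_eq_fintype_card]; exact hK) hf hkill hP

end Pool.Agent.H16.PF3
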