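import Pool.Agent.H16.PF3.Defs

/-!
# PF3 PlaneA: counting flags through a point and flags meeting a line

The line of the flag `i` is `{x : cr (x - y i) (δ i) = 0} = {y i + k • δ i}` (`mem_line_iff`; `δ i ≠ 0`, one of its coordinates is invertible; `k` is unique).
`card_I`: `k = 0` in `fib` (for `x ∈ X`, `y i = x` for exactly two `i`, and `y i ∈ X` always): `|I| = 2 |X|`.
`mem_of_line`: `x = y i + k • δ i`, so the fibre of `x` for this `k` is not empty, `x ∈ X`.
`card_through`: sum `fib` over `k`: each flag `i` with `x` on its line is counted for exactly one `k`: `2 p`.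
`line_count`: count the triples `(i, k, k')` with `y i + k • δ i = y i0 + k' • δ i0`.  For each `k'` the point `y i0 + k' • δ i0` is in `X`, so for each `k`
there are two `i`: in total `2 p²`.  For fixed `i`: if `cr (δ i) (δ i0) ≠ 0` there is exactly one `(k, k')` (Cramer); if `cr (δ i) (δ i0) = 0` then
`δ i = c • δ i0`, `c ≠ 0`: there are `p` pairs `(k, k')` if `cr (y i - y i0) (δ i0) = 0` (`k` arbitrary, `k'` determined) and none otherwise.
-/

set_option autoImplicit false

namespace Pool.Agent.H16.PF3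

open Finset

variable {p : ℕ} [Fact p.Prime] {I : Type*} [Fintype I] {y δ : I → ZMod p × ZMod p}
  {X : Finset (ZMod p × ZMod p)}

private theorem planeA_ne {v : ZMod p × ZMod p} (hv : v ≠ 0) {k k' : ZMod p}
    {u : ZMod p × ZMod p} (h : u + k • v = u + k' • v) : k = k' := by
  have h1 := add_left_cancel h
  have h2 : (k - k') • v = 0 := by rw [sub_smul, h1, sub_self]
  have h3 : (k - k') * v.1 = 0 := congrArg Prod.fst h2
  have h4 : (k - k') * v.2 = 0 := congrArg Prod.snd h2
  by_contra hne
  have h5 : k - k' ≠ 0 := sub_ne_zero.2 hne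
  apply hv
  refine Prod.ext ?_ ?_
  · exact (mul_eq_zero.1 h3).resolve_left h5
  · exact (mul_eq_zero.1 h4).resolve_left h5

theorem mem_line_iff {u v x : ZMod p × ZMod p} (hv : v ≠ 0) :
    cr (x - u) v = 0 ↔ ∃ k : ZMod p, x = u + k • v := by
  obtain ⟨u1, u2⟩ := u
  obtain ⟨v1, v2⟩ := v
  obtain ⟨x1, x2⟩ := x
  constructor
  · intro h
    have h1 : (x1 - u1) * v2 - (x2 - u2) * v1 = 0 := h
    by_cases hv1 : v1 = 0
    · have hv2 : v2 ≠ 0 := fun h2 => hv (by rw [hv1, h2]; rfl)
      refine ⟨(x2 - u2) / v2, ?_⟩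
      rw [hv1, mul_zero, sub_zero] at h1
      have h3 : x1 - u1 = 0 := (mul_eq_zero.1 h1).resolve_right hv2
      refine Prod.ext ?_ ?_
      · show x1 = u1 + (x2 - u2) / v2 * v1
        rw [hv1, mul_zero, add_zero]
        exact sub_eq_zero.1 h3
      · show x2 = u2 + (x2 - u2) / v2 * v2
        rw [div_mul_cancel₀ _ hv2]
        ring
    · refine ⟨(x1 - u1) / v1, ?_⟩
      refine Prod.ext ?_ ?_
      · show x1 = u1 + (x1 - u1) / v1 * v1
        rw [div_mul_cancel₀ _ hv1]
        ring
      · show x2 = u2 + (x1 - u1) / v1 * v2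
        have h3 : (x1 - u1) / v1 * v2 = x2 - u2 := by
          rw [div_mul_eq_mul_div, div_eq_iff hv1]
          linear_combination h1
        rw [h3]
        ring
  · rintro ⟨k, hk⟩
    have e1 : x1 = u1 + k * v1 := congrArg Prod.fst hk
    have e2 : x2 = u2 + k * v2 := congrArg Prod.snd hk
    show (x1 - u1) * v2 - (x2 - u2) * v1 = 0
    rw [e1, e2]
    ring

private theorem planeA_mem (h : Flags p y δ X) (i : I) (k : ZMod p) : y i + k • δ i ∈ X := by
  by_contra hx
  have h1 := h.fib k (y i + k • δ i)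
  rw [if_neg hx, card_eq_zero] at h1
  have h2 : i ∈ univ.filter fun j => y j + k • δ j = y i + k • δ i :=
    mem_filter.2 ⟨mem_univ _, rfl⟩
  rw [h1] at h2
  exact absurd h2 (notMem_empty _)

theorem Flags.card_I (h : Flags p y δ X) : Fintype.card I = 2 * X.card := by
  have h1 : Fintype.card I = ∑ x : ZMod p × ZMod p, (univ.filter fun i => y i = x).card := by
    rw [← card_univ]
    exact card_eq_sum_card_fiberwise fun _ _ => mem_coe.2 (mem_univ _)
  rw [h1]
  calc ∑ x : ZMod p × ZMod p, (univ.filter fun i => y i = x).card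
      = ∑ x : ZMod p × ZMod p, if x ∈ X then 2 else 0 := by
        refine sum_congr rfl fun x _ => ?_
        rw [← h.fib 0 x]
        congr 1
        refine filter_congr fun i _ => ?_
        rw [zero_smul, add_zero]
    _ = 2 * X.card := by
        rw [← sum_filter, sum_const, smul_eq_mul, mul_comm, filter_mem_eq_inter, univ_inter]

theorem Flags.mem_of_line (h : Flags p y δ X) {i : I} {x : ZMod p × ZMod p}
    (hx : cr (x - y i) (δ i) = 0) : x ∈ X := by
  obtain ⟨k, hk⟩ := (mem_line_iff (h.ne i)).1 hx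
  rw [hk]
  exact planeA_mem h i k

theorem Flags.card_through (h : Flags p y δ X) {x : ZMod p × ZMod p} (hx : x ∈ X) :
    (univ.filter fun i => cr (x - y i) (δ i) = 0).card = 2 * p := by
  classical
  have h1 : (univ.filter fun i => cr (x - y i) (δ i) = 0) =
      (univ : Finset (ZMod p)).biUnion fun k => univ.filter fun i => y i + k • δ i = x := by
    ext i
    rw [mem_filter, mem_biUnion, mem_line_iff (h.ne i)]
    constructor
    · rintro ⟨_, k, hk⟩
      exact ⟨k, mem_univ _, mem_filter.2 ⟨mem_univ _, hk.symm⟩⟩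
    · rintro ⟨k, _, hk⟩
      exact ⟨mem_univ _, k, (mem_filter.1 hk).2.symm⟩
  rw [h1, card_biUnion]
  · calc ∑ k : ZMod p, (univ.filter fun i => y i + k • δ i = x).card
        = ∑ _k : ZMod p, 2 := sum_congr rfl fun k _ => by rw [h.fib k x, if_pos hx]
      _ = 2 * p := by
          rw [sum_const, card_univ, ZMod.card, smul_eq_mul, mul_comm]
  · intro k _ k' _ hne
    refine disjoint_left.2 fun i hi hi' => ?_
    exact hne (planeA_ne (h.ne i) ((mem_filter.1 hi).2.trans (mem_filter.1 hi').2.symm))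

/-- the number of pairs `(k, k')` for one flag -/
private theorem planeA_count (h : Flags p y δ X) (i0 i : I) :
    (univ.filter fun kk : ZMod p × ZMod p => y i + kk.1 • δ i = y i0 + kk.2 • δ i0).card =
      if cr (δ i) (δ i0) = 0 then (if cr (y i - y i0) (δ i0) = 0 then p else 0) else 1 := by
  classical
  split_ifs with hD hE
  · -- `p` pairs
    have h1 : ∀ k : ZMod p, ∃ k' : ZMod p, y i + k • δ i = y i0 + k' • δ i0 := by
      intro k
      refine (mem_line_iff (h.ne i0)).1 ?_
      have e1 : cr (y i + k • δ i - y i0) (δ i0) =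
          cr (y i - y i0) (δ i0) + k * cr (δ i) (δ i0) := by
        unfold cr
        show ((y i).1 + k * (δ i).1 - (y i0).1) * (δ i0).2 -
          ((y i).2 + k * (δ i).2 - (y i0).2) * (δ i0).1 =
          ((y i).1 - (y i0).1) * (δ i0).2 - ((y i).2 - (y i0).2) * (δ i0).1 +
          k * ((δ i).1 * (δ i0).2 - (δ i).2 * (δ i0).1)
        ring
      rw [e1, hE, hD, mul_zero, add_zero]
    choose f hf using h1
    have h2 : (univ.filter fun kk : ZMod p × ZMod p =>
        y i + kk.1 • δ i = y i0 + kk.2 • δ i0) =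
        (univ : Finset (ZMod p)).image fun k => (k, f k) := by
      ext kk
      rw [mem_filter, mem_image]
      constructor
      · rintro ⟨_, hk⟩
        refine ⟨kk.1, mem_univ _, Prod.ext rfl ?_⟩
        exact planeA_ne (h.ne i0) ((hf kk.1).symm.trans hk)
      · rintro ⟨k, _, rfl⟩
        exact ⟨mem_univ _, hf k⟩
    rw [h2, card_image_of_injective, card_univ, ZMod.card]
    intro a b hab
    exact congrArg Prod.fst hab
  · -- none
    rw [card_eq_zero, filter_eq_empty_iff]
    intro kk _ hk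
    apply hE
    have h1 := (mem_line_iff (h.ne i0)).2 ⟨kk.2, hk⟩
    have e1 : cr (y i + kk.1 • δ i - y i0) (δ i0) =
        cr (y i - y i0) (δ i0) + kk.1 * cr (δ i) (δ i0) := by
      unfold cr
      show ((y i).1 + kk.1 * (δ i).1 - (y i0).1) * (δ i0).2 -
        ((y i).2 + kk.1 * (δ i).2 - (y i0).2) * (δ i0).1 =
        ((y i).1 - (y i0).1) * (δ i0).2 - ((y i).2 - (y i0).2) * (δ i0).1 +
        kk.1 * ((δ i).1 * (δ i0).2 - (δ i).2 * (δ i0).1)
      ring
    rw [e1, hD, mul_zero, add_zero] at h1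
    exact h1
  · -- one pair
    rw [card_eq_one]
    refine ⟨(cr (y i0 - y i) (δ i0) / cr (δ i) (δ i0), cr (y i0 - y i) (δ i) / cr (δ i) (δ i0)), ?_⟩
    ext kk
    rw [mem_filter, mem_singleton]
    constructor
    · rintro ⟨_, hk⟩
      have e1 : (y i).1 + kk.1 * (δ i).1 = (y i0).1 + kk.2 * (δ i0).1 := congrArg Prod.fst hk
      have e2 : (y i).2 + kk.1 * (δ i).2 = (y i0).2 + kk.2 * (δ i0).2 := congrArg Prod.snd hk
      refine Prod.ext ?_ ?_
      · show kk.1 = cr (y i0 - y i) (δ i0) / cr (δ i) (δ i0)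
        rw [eq_div_iff hD]
        unfold cr
        show kk.1 * ((δ i).1 * (δ i0).2 - (δ i).2 * (δ i0).1) =
          ((y i0).1 - (y i).1) * (δ i0).2 - ((y i0).2 - (y i).2) * (δ i0).1
        linear_combination (δ i0).2 * e1 - (δ i0).1 * e2
      · show kk.2 = cr (y i0 - y i) (δ i) / cr (δ i) (δ i0)
        rw [eq_div_iff hD]
        unfold cr
        show kk.2 * ((δ i).1 * (δ i0).2 - (δ i).2 * (δ i0).1) =
          ((y i0).1 - (y i).1) * (δ i).2 - ((y i0).2 - (y i).2) * (δ i).1
        linear_combination (δ i).2 * e1 - (δ i).1 * e2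
    · rintro rfl
      refine ⟨mem_univ _, Prod.ext ?_ ?_⟩
      · show (y i).1 + cr (y i0 - y i) (δ i0) / cr (δ i) (δ i0) * (δ i).1 =
          (y i0).1 + cr (y i0 - y i) (δ i) / cr (δ i) (δ i0) * (δ i0).1
        have key : cr (y i0 - y i) (δ i0) / cr (δ i) (δ i0) * (δ i).1 -
            cr (y i0 - y i) (δ i) / cr (δ i) (δ i0) * (δ i0).1 = (y i0).1 - (y i).1 := by
          rw [div_mul_eq_mul_div, div_mul_eq_mul_div, ← sub_div, div_eq_iff hD]
          unfold cr
          show (((y i0).1 - (y i).1) * (δ i0).2 - ((y i0).2 - (y i).2) * (δ i0).1) * (δ i).1 -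
            (((y i0).1 - (y i).1) * (δ i).2 - ((y i0).2 - (y i).2) * (δ i).1) * (δ i0).1 =
            ((y i0).1 - (y i).1) * ((δ i).1 * (δ i0).2 - (δ i).2 * (δ i0).1)
          ring
        linear_combination key
      · show (y i).2 + cr (y i0 - y i) (δ i0) / cr (δ i) (δ i0) * (δ i).2 =
          (y i0).2 + cr (y i0 - y i) (δ i) / cr (δ i) (δ i0) * (δ i0).2
        have key : cr (y i0 - y i) (δ i0) / cr (δ i) (δ i0) * (δ i).2 -
            cr (y i0 - y i) (δ i) / cr (δ i) (δ i0) * (δ i0).2 = (y i0).2 - (y i).2 := by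
          rw [div_mul_eq_mul_div, div_mul_eq_mul_div, ← sub_div, div_eq_iff hD]
          unfold cr
          show (((y i0).1 - (y i).1) * (δ i0).2 - ((y i0).2 - (y i).2) * (δ i0).1) * (δ i).2 -
            (((y i0).1 - (y i).1) * (δ i).2 - ((y i0).2 - (y i).2) * (δ i).1) * (δ i0).2 =
            ((y i0).2 - (y i).2) * ((δ i).1 * (δ i0).2 - (δ i).2 * (δ i0).1)
          ring
        linear_combination key

theorem Flags.line_count (h : Flags p y δ X) (i0 : I) :
    p * MM y δ i0 + Fintype.card I = 2 * p ^ 2 + MD δ i0 := by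
  classical
  -- double counting
  have h1 : ∑ i : I, (univ.filter fun kk : ZMod p × ZMod p =>
      y i + kk.1 • δ i = y i0 + kk.2 • δ i0).card = 2 * p ^ 2 := by
    have h2 : ∑ i : I, (univ.filter fun kk : ZMod p × ZMod p =>
        y i + kk.1 • δ i = y i0 + kk.2 • δ i0).card =
        ∑ kk : ZMod p × ZMod p, (univ.filter fun i : I =>
          y i + kk.1 • δ i = y i0 + kk.2 • δ i0).card := by
      simp only [card_filter]
      rw [sum_comm]
    rw [h2]
    calc ∑ kk : ZMod p × ZMod p, (univ.filter fun i : I =>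
          y i + kk.1 • δ i = y i0 + kk.2 • δ i0).card
        = ∑ _kk : ZMod p × ZMod p, 2 :=
          sum_congr rfl fun kk _ => by rw [h.fib kk.1 _, if_pos (planeA_mem h i0 kk.2)]
      _ = 2 * p ^ 2 := by
          rw [sum_const, card_univ, Fintype.card_prod, ZMod.card, smul_eq_mul]
          ring
  have h3 : ∑ i : I, (univ.filter fun kk : ZMod p × ZMod p =>
      y i + kk.1 • δ i = y i0 + kk.2 • δ i0).card + MD δ i0 = p * MM y δ i0 + Fintype.card I := by
    unfold MD MM
    rw [card_filter, card_filter, mul_sum, ← card_univ (α := I), card_eq_sum_ones,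
      ← sum_add_distrib, ← sum_add_distrib]
    refine sum_congr rfl fun i _ => ?_
    rw [planeA_count h i0 i]
    by_cases hD : cr (δ i) (δ i0) = 0
    · by_cases hE : cr (y i - y i0) (δ i0) = 0
      · simp [hD, hE]
      · simp [hD, hE]
    · simp [hD]
  rw [← h3, h1]

end Pool.Agent.H16.PF3
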