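import Pool.Agent.H16.PF3.PlaneA

/-!
# PF3 PlaneB: few flags: all flags through a point are parallel

Write `line i = {x : cr (x - y i) (δ i) = 0}`, `M i = MM y δ i`, `i ∥ j` if `cr (δ i) (δ j) = 0` (an equivalence relation, as `δ ≠ 0`: `par_symm`, `par_trans`).
(1) `MM_through`: if `x ∈ line i` then the flags `j` with `x ∈ line j` and `j ∥ i` are exactly the flags counted by `M i` (two parallel lines with a
common point are equal).
(2) `M_big`: `p M i = 2 p² - |I| + MD i ≥ 2 p² - |I| + M i` and `3 |I| < 4 p²`, so `(p - 1) M i > 2 p² / 3`, `3 M i > 2 p`.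
(3) At a point `x` on `line i1`, `line i2`, `line i3`, pairwise not parallel: `M i1 + M i2 + M i3 ≤ 2 p` (`card_through`, (1)), contradiction to (2).
(4) Suppose `x ∈ line i1 ∩ line i2`, not parallel.  By (3) every flag through `x` is parallel to `i1` or `i2`, so `M i1 + M i2 = 2 p`.  The same for every
other pair of non-parallel flags with meeting lines.  As `M i2 > 0`, `M i1 < 2 p`.
Every flag `j` not parallel to `i1` has a point `x'` in common with `line i1` (Cramer), so `M j = 2 p - M i1 = M i2`.
Every flag `j` not parallel to `i2` has `M j = M i1`.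
If some `j` is parallel to neither, `M i1 = M j = M i2 = p`; but `M i1` is even (the map `i ↦ j` of `Flags.ex`, `j` unique by `inj`, is an involution
without fixed points of the set counted by `M i1`, as `δ ≠ - δ`, `p ≠ 2`) and `p` is odd: contradiction.
So every flag is parallel to `i1` or `i2` (exactly one): `|I| = MD i1 + MD i2`.  The flags through a point `x'` of `line i1` not parallel to `i1` are
`2 p - M i1 = M i2` many; each flag not parallel to `i1` goes through exactly one point of `line i1` (`p` points): `MD i2 = |I| - MD i1 = p M i2`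
(or from `line_count` for `i1`: `|I| - MD i1 = 2 p² - p M i1 = p M i2`).  `line_count` for `i2`: `p M i2 + |I| = 2 p² + MD i2`, so `|I| = 2 p²`: contradiction to
`small`.
So any two flags through the same point are parallel (`par_of_through`), and `M i0 = 2 p` by (1) and `card_through` at `x = y i0` (`y i0 ∈ X`) (`MM_eq`).
-/

set_option autoImplicit false

namespace Pool.Agent.H16.PF3

open Finset

variable {p : ℕ} [Fact p.Prime] {I : Type*} [Fintype I] {y δ : I → ZMod p × ZMod p}
  {X : Finset (ZMod p × ZMod p)}

private theorem planeB_zero (v : ZMod p × ZMod p) : cr 0 v = 0 := by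
  unfold cr
  simp

private theorem planeB_symm {u v : ZMod p × ZMod p} (h : cr u v = 0) : cr v u = 0 := by
  have e : cr v u = - cr u v := by unfold cr; ring
  rw [e, h, neg_zero]

private theorem planeB_mul {u v : ZMod p × ZMod p} (hv : v ≠ 0) (h : cr u v = 0) :
    ∃ c : ZMod p, u = c • v := by
  have h1 := (mem_line_iff (u := 0) (x := u) hv).1 (by simpa using h)
  simpa using h1

private theorem planeB_trans {u v w : ZMod p × ZMod p} (hv : v ≠ 0) (h1 : cr u v = 0)
    (h2 : cr v w = 0) : cr u w = 0 := by
  obtain ⟨c, rfl⟩ := planeB_mul hv h1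
  have e : cr (c • v) w = c * cr v w := by
    unfold cr
    simp only [Prod.smul_fst, Prod.smul_snd, smul_eq_mul]
    ring
  rw [e, h2, mul_zero]

private theorem planeB_through (h : Flags p y δ X) {i : I} {x : ZMod p × ZMod p}
    (hi : cr (x - y i) (δ i) = 0) :
    (univ.filter fun j => cr (x - y j) (δ j) = 0 ∧ cr (δ j) (δ i) = 0).card = MM y δ i := by
  unfold MM
  congr 1
  ext j
  simp only [mem_filter, mem_univ, true_and]
  constructor
  · rintro ⟨h1, h2⟩
    refine ⟨h2, ?_⟩
    obtain ⟨c, hc⟩ := planeB_mul (h.ne j) (planeB_symm h2)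
    have e1 : cr (x - y j) (δ i) = c * cr (x - y j) (δ j) := by
      rw [hc]
      unfold cr
      simp only [Prod.smul_fst, Prod.smul_snd, smul_eq_mul]
      ring
    have e : cr (y j - y i) (δ i) = cr (x - y i) (δ i) - cr (x - y j) (δ i) := by
      unfold cr
      simp only [Prod.fst_sub, Prod.snd_sub]
      ring
    rw [e, e1, hi, h1]
    ring
  · rintro ⟨h1, h2⟩
    refine ⟨?_, h1⟩
    obtain ⟨c, hc⟩ := planeB_mul (h.ne i) h1
    have e : cr (x - y j) (δ j) = c * (cr (x - y i) (δ i) - cr (y j - y i) (δ i)) := by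
      rw [hc]
      unfold cr
      simp only [Prod.smul_fst, Prod.smul_snd, smul_eq_mul, Prod.fst_sub, Prod.snd_sub]
      ring
    rw [e, hi, h2]
    ring

private theorem planeB_big (h : Flags p y δ X) (i : I) : 2 * p < 3 * MM y δ i := by
  have hp0 : 0 < p := (Fact.out : p.Prime).pos
  have h1 := h.line_count i
  have h3 := h.small
  by_contra hc
  push Not at hc
  have h4 : p * (3 * MM y δ i) ≤ p * (2 * p) := Nat.mul_le_mul_left p hc
  nlinarith

private theorem planeB_three (h : Flags p y δ X) {i j k : I} {x : ZMod p × ZMod p}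
    (hi : cr (x - y i) (δ i) = 0) (hj : cr (x - y j) (δ j) = 0) (hk : cr (x - y k) (δ k) = 0)
    (hij : cr (δ j) (δ i) ≠ 0) (hik : cr (δ k) (δ i) ≠ 0) : cr (δ k) (δ j) = 0 := by
  by_contra hjk
  have hx := h.mem_of_line hi
  have h0 := h.card_through hx
  have h1 := planeB_through h hi
  have h2 := planeB_through h hj
  have h3 := planeB_through h hk
  have b1 := planeB_big h i
  have b2 := planeB_big h j
  have b3 := planeB_big h k
  set A := univ.filter fun l => cr (x - y l) (δ l) = 0 ∧ cr (δ l) (δ i) = 0 with hA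
  set B := univ.filter fun l => cr (x - y l) (δ l) = 0 ∧ cr (δ l) (δ j) = 0 with hB
  set C := univ.filter fun l => cr (x - y l) (δ l) = 0 ∧ cr (δ l) (δ k) = 0 with hC
  classical
  have dAB : Disjoint A B := by
    rw [Finset.disjoint_left]
    intro l hl hl'
    rw [hA, mem_filter] at hl
    rw [hB, mem_filter] at hl'
    exact hij (planeB_trans (h.ne l) (planeB_symm hl'.2.2) hl.2.2)
  have dAC : Disjoint A C := by
    rw [Finset.disjoint_left]
    intro l hl hl'
    rw [hA, mem_filter] at hl
    rw [hC, mem_filter] at hl'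
    exact hik (planeB_trans (h.ne l) (planeB_symm hl'.2.2) hl.2.2)
  have dBC : Disjoint B C := by
    rw [Finset.disjoint_left]
    intro l hl hl'
    rw [hB, mem_filter] at hl
    rw [hC, mem_filter] at hl'
    exact hjk (planeB_trans (h.ne l) (planeB_symm hl'.2.2) hl.2.2)
  have hsub : (A ∪ B) ∪ C ⊆ univ.filter fun l => cr (x - y l) (δ l) = 0 := by
    intro l hl
    rw [mem_union, mem_union] at hl
    rw [mem_filter]
    rcases hl with (hl | hl) | hl
    · rw [hA, mem_filter] at hl; exact ⟨mem_univ _, hl.2.1⟩
    · rw [hB, mem_filter] at hl; exact ⟨mem_univ _, hl.2.1⟩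
    · rw [hC, mem_filter] at hl; exact ⟨mem_univ _, hl.2.1⟩
  have hcard := Finset.card_le_card hsub
  rw [Finset.card_union_of_disjoint (Finset.disjoint_union_left.2 ⟨dAC, dBC⟩),
    Finset.card_union_of_disjoint dAB, h0, h1, h2, h3] at hcard
  omega

private theorem planeB_two (h : Flags p y δ X) {i j : I} (hij : cr (δ j) (δ i) ≠ 0) :
    MM y δ i + MM y δ j = 2 * p := by
  classical
  have hji : cr (δ i) (δ j) ≠ 0 := fun h0 => hij (planeB_symm h0)
  set k : ZMod p := - cr (y i - y j) (δ j) / cr (δ i) (δ j) with hk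
  set x : ZMod p × ZMod p := y i + k • δ i with hxd
  have hi : cr (x - y i) (δ i) = 0 := by
    rw [mem_line_iff (h.ne i)]
    exact ⟨k, rfl⟩
  have hj : cr (x - y j) (δ j) = 0 := by
    have e : cr (x - y j) (δ j) = cr (y i - y j) (δ j) + k * cr (δ i) (δ j) := by
      rw [hxd]
      unfold cr
      simp only [Prod.smul_fst, Prod.smul_snd, smul_eq_mul, Prod.fst_sub, Prod.snd_sub,
        Prod.fst_add, Prod.snd_add]
      ring
    rw [e, hk, div_mul_cancel₀ _ hji]
    ring
  have h0 := h.card_through (h.mem_of_line hi)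
  have h1 := planeB_through h hi
  have h2 := planeB_through h hj
  rw [← h0, ← h1, ← h2, ← Finset.card_union_of_disjoint]
  · congr 1
    ext l
    simp only [mem_union, mem_filter, mem_univ, true_and]
    constructor
    · rintro (hl | hl)
      · exact hl.1
      · exact hl.1
    · intro hl
      by_cases hc : cr (δ l) (δ i) = 0
      · exact Or.inl ⟨hl, hc⟩
      · exact Or.inr ⟨hl, planeB_three h hi hj hl hij hc⟩
  · rw [Finset.disjoint_left]
    intro l hl hl'
    rw [mem_filter] at hl hl'
    exact hij (planeB_trans (h.ne l) (planeB_symm hl'.2.2) hl.2.2)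

private theorem planeB_even (h : Flags p y δ X) (hp : p ≠ 2) (i : I) : Even (MM y δ i) := by
  choose g hg using h.ex
  have hgg : ∀ j, g (g j) = j := by
    intro j
    apply h.inj
    · rw [(hg _).1, (hg _).1]
    · rw [(hg _).2, (hg _).2, neg_neg]
  have hne : ∀ j, g j ≠ j := by
    intro j hj
    have h1 := (hg j).2
    rw [hj] at h1
    apply h.ne j
    have h2 : (2 : ZMod p) ≠ 0 := by
      intro h3
      have h4 : ((2 : ℕ) : ZMod p) = 0 := by exact_mod_cast h3
      rw [ZMod.natCast_eq_zero_iff] at h4
      exact hp ((Nat.prime_dvd_prime_iff_eq (Fact.out : p.Prime) Nat.prime_two).1 h4)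
    have h5 : (2 : ZMod p) • δ j = 0 := by
      rw [two_smul]
      nth_rewrite 1 [h1]
      exact neg_add_cancel _
    exact (smul_eq_zero.1 h5).resolve_left h2
  have hs : ∑ j ∈ univ.filter (fun j => cr (δ j) (δ i) = 0 ∧ cr (y j - y i) (δ i) = 0),
      (1 : ZMod 2) = 0 := by
    refine Finset.sum_involution (fun j _ => g j) ?_ ?_ ?_ ?_
    · intro j _
      decide
    · intro j _ _
      exact hne j
    · intro j hj
      rw [mem_filter] at hj ⊢
      refine ⟨mem_univ _, ?_, ?_⟩
      · rw [(hg j).2]
        have e : cr (- δ j) (δ i) = - cr (δ j) (δ i) := by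
          unfold cr
          simp only [Prod.fst_neg, Prod.snd_neg]
          ring
        rw [e, hj.2.1, neg_zero]
      · rw [(hg j).1]
        exact hj.2.2
    · intro j _
      exact hgg j
  rw [Finset.sum_const, nsmul_eq_mul, mul_one] at hs
  rw [ZMod.natCast_eq_zero_iff] at hs
  exact even_iff_two_dvd.2 hs

theorem Flags.par_of_through (h : Flags p y δ X) (hp : p ≠ 2) {i j : I} {x : ZMod p × ZMod p}
    (hi : cr (x - y i) (δ i) = 0) (hj : cr (x - y j) (δ j) = 0) : cr (δ j) (δ i) = 0 := by
  classical
  by_contra hij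
  have hM := planeB_two h hij
  have hpp : p.Prime := Fact.out
  by_cases hc : ∃ l, cr (δ l) (δ i) ≠ 0 ∧ cr (δ l) (δ j) ≠ 0
  · obtain ⟨l, hl1, hl2⟩ := hc
    have e1 := planeB_two h hl1
    have e2 := planeB_two h hl2
    have e3 := planeB_even h hp i
    have e4 : MM y δ i = p := by omega
    rw [e4] at e3
    rcases hpp.eq_two_or_odd' with h2 | h2
    · exact hp h2
    · exact (Nat.not_even_iff_odd.2 h2) e3
  · push Not at hc
    have hcard : Fintype.card I = MD δ i + MD δ j := by
      unfold MD
      rw [← Finset.card_union_of_disjoint]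
      · rw [← Finset.card_univ]
        congr 1
        ext l
        simp only [mem_union, mem_filter, mem_univ, true_and, true_iff]
        by_cases hl : cr (δ l) (δ i) = 0
        · exact Or.inl hl
        · exact Or.inr (hc l hl)
      · rw [Finset.disjoint_left]
        intro l hl hl'
        rw [mem_filter] at hl hl'
        exact hij (planeB_trans (h.ne l) (planeB_symm hl'.2) hl.2)
    have l1 := h.line_count i
    have l2 := h.line_count j
    have hs := h.small
    have e : p * (MM y δ i + MM y δ j) = 2 * p ^ 2 := by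
      rw [hM]
      ring
    rw [mul_add] at e
    have hp0 : 0 < p ^ 2 := pow_pos hpp.pos 2
    omega

theorem Flags.MM_eq (h : Flags p y δ X) (hp : p ≠ 2) (i0 : I) : MM y δ i0 = 2 * p := by
  have h0 : cr (y i0 - y i0) (δ i0) = 0 := by
    rw [sub_self]
    exact planeB_zero _
  rw [← planeB_through h h0, ← h.card_through (h.mem_of_line h0)]
  congr 1
  ext l
  simp only [mem_filter, mem_univ, true_and]
  constructor
  · intro hl
    exact hl.1
  · intro hl
    exact ⟨hl, h.par_of_through hp h0 hl⟩

end Pool.Agent.H16.PF3
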