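import Pool.Agent.H16.PF3.PlaneB

/-!
# PF3 PlaneC: the vector is constant along the lines

Count the pairs `(k, i)`, `k ∈ ZMod p`, with `y i + k • δ i = y i0 + k • δ i0`.
The point `x_k = y i0 + k • δ i0` is on the line of `i0`, hence in `X` (`mem_of_line`), so for each `k` there are two `i` (`fib`): `2 p` pairs.
If `(k, i)` is such a pair, `x_k` is on the lines of `i` and of `i0`, so `i` is parallel to `i0` (`par_of_through`) and `i` is in the set `S` of the `2 p` flags
counted by `MM y δ i0` (`MM_eq`).  For `i ∈ S`: if `δ i = δ i0` the equation says `y i = y i0`, i.e. `i = i0` (`inj`), and all `p` values of `k` are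
possible; if `δ i ≠ δ i0` then `δ i - δ i0 = c • δ i0`, `c ≠ 0`, `y i - y i0 = b • δ i0` and there is exactly one `k` (`b + k c = 0`).
So `2 p = p + (2 p - n)`, `n = |{i ∈ S : δ i = δ i0}|`, i.e. `n = p`.  (`δ i = δ i0` implies `cr (δ i) (δ i0) = 0`.)
-/

set_option autoImplicit false

namespace Pool.Agent.H16.PF3

open Finset

variable {p : ℕ} [Fact p.Prime] {I : Type*} [Fintype I] {y δ : I → ZMod p × ZMod p}
  {X : Finset (ZMod p × ZMod p)}

private theorem planeC_cr_self (u : ZMod p × ZMod p) : cr u u = 0 := by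
  unfold cr
  ring

private theorem planeC_smul_eq {v : ZMod p × ZMod p} (hv : v ≠ 0) {a b : ZMod p}
    (h : a • v = b • v) : a = b := by
  by_contra hab
  apply hv
  have h1 : (a - b) • v = 0 := by rw [sub_smul, h, sub_self]
  have h2 : (a - b)⁻¹ • ((a - b) • v) = v := by
    rw [smul_smul, inv_mul_cancel₀ (sub_ne_zero.mpr hab), one_smul]
  rw [← h2, h1, smul_zero]

theorem Flags.main (h : Flags p y δ X) (hp : p ≠ 2) (i0 : I) :
    (univ.filter fun i => δ i = δ i0 ∧ cr (y i - y i0) (δ i0) = 0).card = p := by
  classical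
  have hne := h.ne i0
  -- the two descriptions of the number of solutions
  have hT : ∀ k : ZMod p, (univ.filter fun i => y i + k • δ i = y i0 + k • δ i0).card = 2 := by
    intro k
    have hX : y i0 + k • δ i0 ∈ X := by
      apply h.mem_of_line (i := i0)
      have e : y i0 + k • δ i0 - y i0 = k • δ i0 := add_sub_cancel_left _ _
      rw [e]
      unfold cr
      simp only [Prod.smul_fst, Prod.smul_snd, smul_eq_mul]
      ring
    rw [h.fib k, if_pos hX]
  have hS : ∀ (i : I) (k : ZMod p), y i + k • δ i = y i0 + k • δ i0 →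
      cr (δ i) (δ i0) = 0 ∧ cr (y i - y i0) (δ i0) = 0 := by
    intro i k hk
    have h1 : cr (y i0 + k • δ i0 - y i0) (δ i0) = 0 := by
      unfold cr
      simp only [Prod.fst_sub, Prod.snd_sub, Prod.fst_add, Prod.snd_add, Prod.smul_fst,
        Prod.smul_snd, smul_eq_mul]
      ring
    have h2 : cr (y i0 + k • δ i0 - y i) (δ i) = 0 := by
      rw [← hk]
      unfold cr
      simp only [Prod.fst_sub, Prod.snd_sub, Prod.fst_add, Prod.snd_add, Prod.smul_fst,
        Prod.smul_snd, smul_eq_mul]
      ring
    have h3 := h.par_of_through hp h1 h2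
    refine ⟨h3, ?_⟩
    have h4 : y i - y i0 = k • δ i0 - k • δ i := by
      have : y i = y i0 + k • δ i0 - k • δ i := by rw [← hk, add_sub_cancel_right]
      rw [this]
      abel
    rw [h4]
    have h5 : cr (k • δ i0 - k • δ i) (δ i0) = - (k * cr (δ i) (δ i0)) := by
      unfold cr
      simp only [Prod.fst_sub, Prod.snd_sub, Prod.smul_fst, Prod.smul_snd, smul_eq_mul]
      ring
    rw [h5, h3, mul_zero, neg_zero]
  have hN : ∀ i, (univ.filter fun k : ZMod p => y i + k • δ i = y i0 + k • δ i0).card =
      (if i = i0 then p else 0) +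
        (if (cr (δ i) (δ i0) = 0 ∧ cr (y i - y i0) (δ i0) = 0) ∧ ¬ δ i = δ i0 then 1 else 0) := by
    intro i
    by_cases hi : i = i0
    · subst hi
      simp [ZMod.card]
    rw [if_neg hi, zero_add]
    by_cases hc : (cr (δ i) (δ i0) = 0 ∧ cr (y i - y i0) (δ i0) = 0) ∧ ¬ δ i = δ i0
    · rw [if_pos hc]
      obtain ⟨⟨hc1, hc2⟩, hc3⟩ := hc
      obtain ⟨c, hc4⟩ := (mem_line_iff (u := 0) (x := δ i) hne).mp (by rw [sub_zero]; exact hc1)
      obtain ⟨b, hb⟩ := (mem_line_iff hne).mp hc2
      rw [zero_add] at hc4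
      have hc5 : 1 - c ≠ 0 := by
        intro h1
        apply hc3
        have : c = 1 := (sub_eq_zero.mp h1).symm
        rw [hc4, this, one_smul]
      rw [card_eq_one]
      refine ⟨b / (1 - c), ?_⟩
      ext k
      simp only [mem_filter, mem_univ, true_and, mem_singleton]
      rw [hb, hc4]
      constructor
      · intro hk
        have h1 : (b + k * c) • δ i0 = k • δ i0 := by
          have h2 : y i0 + (b + k * c) • δ i0 = y i0 + k • δ i0 := by
            rw [← hk, add_smul, mul_smul, add_assoc]
          exact add_left_cancel h2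
        have h3 := planeC_smul_eq hne h1
        rw [eq_div_iff hc5]
        linear_combination -h3
      · intro hk
        have h3 : b + k * c = k := by
          rw [eq_div_iff hc5] at hk
          linear_combination -hk
        rw [add_assoc, smul_smul, ← add_smul, h3]
    · rw [if_neg hc, card_eq_zero, filter_eq_empty_iff]
      intro k _ hk
      have h1 := hS i k hk
      have h2 : δ i = δ i0 := by
        by_contra h3
        exact hc ⟨h1, h3⟩
      apply hi
      apply h.inj i i0 _ h2
      rw [h2] at hk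
      exact add_right_cancel hk
  have hsum : ∑ k : ZMod p, (univ.filter fun i => y i + k • δ i = y i0 + k • δ i0).card =
      ∑ i, (univ.filter fun k : ZMod p => y i + k • δ i = y i0 + k • δ i0).card := by
    simp only [card_filter]
    exact sum_comm
  rw [sum_congr rfl (fun k _ => hT k), sum_congr rfl (fun i _ => hN i), sum_add_distrib,
    sum_ite_eq' univ i0 (fun _ => p), if_pos (mem_univ _), ← card_filter, sum_const, card_univ,
    ZMod.card, smul_eq_mul] at hsum
  have hMM := h.MM_eq hp i0
  unfold MM at hMM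
  have hsplit := card_filter_add_card_filter_not
    (s := univ.filter fun j => cr (δ j) (δ i0) = 0 ∧ cr (y j - y i0) (δ i0) = 0)
    (fun j => δ j = δ i0)
  rw [filter_filter, filter_filter, hMM] at hsplit
  have hA : (univ.filter fun i => δ i = δ i0 ∧ cr (y i - y i0) (δ i0) = 0) =
      univ.filter fun j => (cr (δ j) (δ i0) = 0 ∧ cr (y j - y i0) (δ i0) = 0) ∧ δ j = δ i0 := by
    ext j
    simp only [mem_filter, mem_univ, true_and]
    constructor
    · rintro ⟨h1, h2⟩
      exact ⟨⟨by rw [h1]; exact planeC_cr_self _, h2⟩, h1⟩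
    · rintro ⟨⟨_, h2⟩, h1⟩
      exact ⟨h1, h2⟩
  rw [hA]
  omega

end Pool.Agent.H16.PF3
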