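import Pool.Agent.H16.PF3.Defs

/-!
# PF3 Sidon: the graph of a planar function is a Sidon set

`sidon`: with `h = a - c = d - b`: if `h = 0` done, otherwise `f (h + c) - f c = f a - f c = f d - f b = f (h + b) - f b`, so `c = b` (injective).
`diff_unique`: from `sidon` (`a + d = c + b`) and `a ≠ b`.
`diff_exists`: `x.1 ≠ 0`: surjectivity.
`sum_pairs_ker`: the map `(a, b) ↦ gr a - gr b` is a bijection from `{a ≠ b}` onto `{x : x.1 ≠ 0}`; so the sum over the pairs with
`m • gr a = m • gr b`, i.e. `m • (gr a - gr b) = 0`, splits into the diagonal (`|H|` terms `F 0`) and the sum of `F x` over `x.1 ≠ 0`, `m • x = 0`.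
`quad_shift`: for given `(a, c)` put `y = gr a - gr c - z`.  The number of `(b, d)` with `gr d - gr b = y` is `1` if `y.1 ≠ 0`, `|H|` if `y = 0` (`b = d`), and
`0` if `y.1 = 0`, `y ≠ 0`.  There are `|H|² - |H|` pairs `(a, c)` with `y.1 ≠ 0` (`y.1 = a - c - z.1`) and at most one pair with `y = 0`
(`diff_unique`, `z ≠ 0`).
`quad_zero`: by `sidon` the quadruples are `(a, b, a, b)` and `(a, b, b, a)`: at most `2 |H|²`.
-/

set_option autoImplicit false

namespace Pool.Agent.H16.PF3

open Finset Pool.Agent.H88.Pl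

variable {H K : Type*} [AddCommGroup H] [AddCommGroup K]

theorem sidon {f : H → K} (hf : IsPlanar f) {a b c d : H}
    (h : gr f a + gr f b = gr f c + gr f d) : (a = c ∧ b = d) ∨ (a = d ∧ b = c) := by
  have h1 : a + b = c + d := congrArg Prod.fst h
  have h2 : f a + f b = f c + f d := congrArg Prod.snd h
  by_cases hac : a = c
  · left
    refine ⟨hac, ?_⟩
    rw [hac] at h1
    exact add_left_cancel h1
  · right
    have h0 : a - c ≠ 0 := sub_ne_zero.mpr hac
    have h3 : a - c = d - b := by
      rw [sub_eq_sub_iff_add_eq_add, h1, add_comm]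
    have h4 : c = b := by
      apply (hf (a - c) h0).1
      have e1 : a - c + c = a := sub_add_cancel a c
      have e2 : a - c + b = d := by rw [h3, sub_add_cancel]
      simp only [e1, e2]
      rw [sub_eq_sub_iff_add_eq_add, h2, add_comm]
    refine ⟨?_, h4.symm⟩
    rw [h4, add_comm b d] at h1
    exact add_right_cancel h1

theorem diff_unique {f : H → K} (hf : IsPlanar f) {a b c d : H}
    (h : gr f a - gr f b = gr f c - gr f d) (hab : a ≠ b) : a = c ∧ b = d := by
  have h1 : gr f a + gr f d = gr f c + gr f b := by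
    rwa [sub_eq_sub_iff_add_eq_add] at h
  rcases sidon hf h1 with ⟨h2, h3⟩ | ⟨h2, _⟩
  · exact ⟨h2, h3.symm⟩
  · exact absurd h2 hab

theorem diff_exists {f : H → K} (hf : IsPlanar f) (x : H × K) (hx : x.1 ≠ 0) :
    ∃ a b : H, a ≠ b ∧ gr f a - gr f b = x := by
  obtain ⟨b, hb⟩ := (hf x.1 hx).2 x.2
  refine ⟨x.1 + b, b, ?_, ?_⟩
  · intro h
    exact hx (by simpa using h)
  · refine Prod.ext ?_ ?_
    · show x.1 + b - b = x.1
      exact add_sub_cancel_right x.1 b
    · exact hb

variable [Fintype H] [Fintype K] [DecidableEq H] [DecidableEq K]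

theorem sum_pairs_ker {M : Type*} [AddCommMonoid M] {f : H → K} (hf : IsPlanar f) (m : ℕ)
    (F : H × K → M) :
    ∑ ab ∈ univ.filter (fun ab : H × H => m • gr f ab.1 = m • gr f ab.2),
      F (gr f ab.1 - gr f ab.2) =
    Fintype.card H • F 0 + ∑ x ∈ univ.filter (fun x : H × K => m • x = 0 ∧ x.1 ≠ 0), F x := by
  rw [← sum_filter_add_sum_filter_not
    (univ.filter (fun ab : H × H => m • gr f ab.1 = m • gr f ab.2)) (fun ab => ab.1 = ab.2)]
  congr 1
  · have e : (univ.filter (fun ab : H × H => m • gr f ab.1 = m • gr f ab.2)).filter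
        (fun ab => ab.1 = ab.2) = univ.image (fun a : H => (a, a)) := by
      ext ⟨a, b⟩
      simp only [mem_filter, mem_univ, true_and, mem_image, Prod.mk.injEq]
      constructor
      · rintro ⟨_, h⟩
        exact ⟨a, rfl, h⟩
      · rintro ⟨c, rfl, rfl⟩
        exact ⟨rfl, rfl⟩
    rw [e, sum_image (fun a _ b _ h => congrArg Prod.fst h)]
    simp
  · refine sum_nbij (fun ab => gr f ab.1 - gr f ab.2) ?_ ?_ ?_ (fun _ _ => rfl)
    · rintro ⟨a, b⟩ hab
      simp only [mem_filter, mem_univ, true_and] at hab ⊢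
      refine ⟨?_, ?_⟩
      · rw [smul_sub, hab.1, sub_self]
      · intro h
        exact hab.2 (sub_eq_zero.mp h)
    · rintro ⟨a, b⟩ hab ⟨c, d⟩ hcd h
      have h1 := (mem_filter.mp (mem_coe.mp hab)).2
      obtain ⟨h2, h3⟩ := diff_unique hf h h1
      simp only at h2 h3
      rw [h2, h3]
    · intro x hx
      have h1 := (mem_filter.mp (mem_coe.mp hx)).2
      obtain ⟨a, b, hab, h2⟩ := diff_exists hf x h1.2
      refine ⟨(a, b), ?_, h2⟩
      rw [mem_coe, mem_filter, mem_filter]
      refine ⟨⟨mem_univ _, ?_⟩, hab⟩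
      have h3 : m • (gr f a - gr f b) = 0 := by rw [h2]; exact h1.1
      rw [smul_sub, sub_eq_zero] at h3
      exact h3

theorem quad_zero {f : H → K} (hf : IsPlanar f) :
    (univ.filter fun q : (H × H) × (H × H) =>
      gr f q.1.1 + gr f q.1.2 = gr f q.2.1 + gr f q.2.2).card ≤ 2 * Fintype.card H ^ 2 := by
  have hsub : (univ.filter fun q : (H × H) × (H × H) =>
      gr f q.1.1 + gr f q.1.2 = gr f q.2.1 + gr f q.2.2) ⊆
      univ.image (fun ab : H × H => (ab, ab)) ∪
        univ.image (fun ab : H × H => (ab, (ab.2, ab.1))) := by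
    rintro ⟨⟨a, b⟩, ⟨c, d⟩⟩ hq
    rw [mem_filter] at hq
    rw [mem_union, mem_image, mem_image]
    rcases sidon hf hq.2 with ⟨h1, h2⟩ | ⟨h1, h2⟩
    · left
      simp only at h1 h2
      subst h1 h2
      exact ⟨(a, b), mem_univ _, rfl⟩
    · right
      simp only at h1 h2
      subst h1 h2
      exact ⟨(a, b), mem_univ _, rfl⟩
  refine (card_le_card hsub).trans ((card_union_le _ _).trans ?_)
  have h1 : (univ.image (fun ab : H × H => (ab, ab))).card ≤ Fintype.card H ^ 2 := by
    refine card_image_le.trans ?_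
    rw [card_univ, Fintype.card_prod, sq]
  have h2 : (univ.image (fun ab : H × H => (ab, (ab.2, ab.1)))).card ≤ Fintype.card H ^ 2 := by
    refine card_image_le.trans ?_
    rw [card_univ, Fintype.card_prod, sq]
  omega

theorem quad_shift {f : H → K} (hf : IsPlanar f) {z : H × K} (hz : z ≠ 0) :
    (univ.filter fun q : (H × H) × (H × H) =>
      gr f q.1.1 + gr f q.1.2 = gr f q.2.1 + gr f q.2.2 + z).card ≤ Fintype.card H ^ 2 := by
  have hcard : (univ : Finset (H × H)).card = Fintype.card H ^ 2 := by
    rw [card_univ, Fintype.card_prod, sq]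
  rw [← hcard]
  refine card_le_card_of_injOn
    (fun q => if q.1.2 = q.2.2 then (q.1.2, q.1.2 - z.1) else (q.1.1, q.2.1))
    (fun _ _ => mem_univ _) ?_
  rintro ⟨⟨a, b⟩, ⟨c, d⟩⟩ hq ⟨⟨a', b'⟩, ⟨c', d'⟩⟩ hq' heq
  have h1 : gr f a + gr f b = gr f c + gr f d + z := (mem_filter.mp (mem_coe.mp hq)).2
  have h1' : gr f a' + gr f b' = gr f c' + gr f d' + z := (mem_filter.mp (mem_coe.mp hq')).2
  have h2 : a + b = c + d + z.1 := congrArg Prod.fst h1
  have h2' : a' + b' = c' + d' + z.1 := congrArg Prod.fst h1'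
  simp only at heq
  by_cases hbd : b = d
  · by_cases hbd' : b' = d'
    · subst hbd hbd'
      rw [if_pos rfl, if_pos rfl, Prod.mk.injEq] at heq
      have hb := heq.1
      subst hb
      have h3 : gr f a = gr f c + z := by
        rw [add_right_comm] at h1
        exact add_right_cancel h1
      have h3' : gr f a' = gr f c' + z := by
        rw [add_right_comm] at h1'
        exact add_right_cancel h1'
      have hac : a ≠ c := by
        intro h
        rw [h] at h3
        exact hz (by simpa using h3.symm)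
      have h4 : gr f a - gr f c = gr f a' - gr f c' := by
        rw [h3, h3', add_sub_cancel_left, add_sub_cancel_left]
      obtain ⟨h5, h6⟩ := diff_unique hf h4 hac
      rw [h5, h6]
    · exfalso
      rw [if_pos hbd, if_neg hbd', Prod.mk.injEq] at heq
      apply hbd'
      have h3 : a' + b' = a' + d' := by
        rw [h2', ← heq.1, ← heq.2]
        abel
      exact add_left_cancel h3
  · by_cases hbd' : b' = d'
    · exfalso
      rw [if_neg hbd, if_pos hbd', Prod.mk.injEq] at heq
      apply hbd
      have h3 : a + b = a + d := by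
        rw [h2, heq.1, heq.2]
        abel
      exact add_left_cancel h3
    · rw [if_neg hbd, if_neg hbd', Prod.mk.injEq] at heq
      obtain ⟨e1, e2⟩ := heq
      subst e1 e2
      have h4 : gr f b - gr f d = gr f b' - gr f d' := by
        have h5 : gr f b - gr f d = gr f c + z - gr f a := by
          rw [sub_eq_sub_iff_add_eq_add, add_comm (gr f b), h1]
          abel
        have h5' : gr f b' - gr f d' = gr f c + z - gr f a := by
          rw [sub_eq_sub_iff_add_eq_add, add_comm (gr f b'), h1']
          abel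
        rw [h5, h5']
      obtain ⟨h5, h6⟩ := diff_unique hf h4 hbd
      rw [h5, h6]

end Pool.Agent.H16.PF3
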