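import Pool.Agent.H16.PF3.Ident
import Pool.Agent.H16.PF3.Sidon
import Pool.Agent.H16.PF3.PlaneC

/-!
# PF3 Transfer: good cosets

`G = H × K`, `m = p ^ (e - 1)`, `P = m G` (finset `Pf H K m`, `|P| = p²`, hypothesis `hP`), `p P = 0`, `m P = 0`, `p` odd.
Let `a0, b0` be in different slices (`m • gr a0 ≠ m • gr b0`), `x0 = gr a0 + gr b0`, `τ = m • gr a0 - m • gr b0 ∈ P`, and `3 |II x0| < 4 p²`.
Claim: `|NN a0 b0| = p`.
PROOF.  `P` (as the subgroup `(nsmulAddMonoidHom m).range`, a `ZMod p`-module by `AddCommGroup.zmodModule`) has `p²` elements, so there is an additive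
equivalence `φ : P ≃+ ZMod p × ZMod p` (finrank `2`; `φ` is `ZMod p`-linear).  Take `I = {ab // ab ∈ II f m x0}`, `y ab = φ (gr a + gr b - x0)`,
`δ ab = φ (m • (gr a - gr b))`, `X = {v | some ab ∈ I has y ab = v}`.  This is a `Flags`:
`ne`: the slices are different.  `inj`: `gr a + gr b = gr a' + gr b'`, so by `sidon` `(a', b') = (a, b)` or `(b, a)`; in the second case `δ' = - δ = δ`,
`δ = 0` as `p` is odd.  `ex`: `(b, a)`.  `small`: hypothesis.
`fib`: let `v = φ z`, `x = x0 + z`, `k : ZMod p`.  By `ident` (with `k.val`) the number of all pairs with `gr a + gr b + k • m • (gr a - gr b) = x` is the number of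
all pairs with `gr a + gr b = x`.  The pairs in the same slice (`m • gr a = m • gr b`) satisfy one condition iff the other, so the same holds for the
pairs in different slices; these are in `II x0` as the sum differs from `x` by an element of `P`.  So the count in `fib` for `k` is the one for `k = 0`,
the number of pairs of `II x0` with `gr a + gr b = x`, which is `0` or `2` by `sidon` (`(a, b)` and `(b, a)`), and `2` iff `v ∈ X`.
`Flags.main` for `i0 = (a0, b0)`: the number of `(a, b) ∈ II x0` with `m • (gr a - gr b) = τ` and `gr a + gr b - x0 = k • τ` for some `k` is `p`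
(`mem_line_iff`).  This set is `NN a0 b0`: if `m • gr a = m • gr a0`, `m • gr b = m • gr b0` clear; conversely
`m • (gr a + gr b) = m • x0` (`m P = 0`) and `m • (gr a - gr b) = m • (gr a0 - gr b0)` give `2 m • gr a = 2 m • gr a0`, and the element
`m • gr a - m • gr a0` of `P` has `2 • = 0` and `p • = 0`, so it is `0`.
-/

set_option autoImplicit false

namespace Pool.Agent.H16.PF3

open Finset Pool.Agent.H88.Pl

private theorem transfer_phi0 {p : ℕ} [Fact p.Prime] {A : Type*} [AddCommGroup A] [Finite A]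
    (hp : ∀ z : A, p • z = 0) (hc : Nat.card A = p ^ 2) :
    ∃ φ : A ≃+ (ZMod p × ZMod p), ∀ (k : ℕ) (a : A), φ (k • a) = (k : ZMod p) • φ a := by
  let inst : Module (ZMod p) A := AddCommGroup.zmodModule (n := p) hp
  have hpr : p.Prime := Fact.out
  have hfin : Module.Finite (ZMod p) A := Module.Finite.of_finite
  have h1 : Nat.card A = Nat.card (ZMod p) ^ Module.finrank (ZMod p) A :=
    Module.natCard_eq_pow_finrank
  rw [hc, Nat.card_zmod] at h1
  have h2 : Module.finrank (ZMod p) A = 2 := (Nat.pow_right_injective hpr.two_le h1).symm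
  have h3 : Module.finrank (ZMod p) A = Module.finrank (ZMod p) (ZMod p × ZMod p) := by
    rw [h2, Module.finrank_prod, Module.finrank_self]
  let φ : A ≃ₗ[ZMod p] (ZMod p × ZMod p) := LinearEquiv.ofFinrankEq A (ZMod p × ZMod p) h3
  refine ⟨φ.toAddEquiv, ?_⟩
  intro k a
  show φ (k • a) = (k : ZMod p) • φ a
  rw [← map_smul, Nat.cast_smul_eq_nsmul]

private theorem transfer_phi {p : ℕ} [Fact p.Prime] {G : Type*} [AddCommGroup G] [Finite G]
    (S : AddSubgroup G) (hp : ∀ z ∈ S, p • z = 0) (hc : Nat.card S = p ^ 2) :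
    ∃ Φ : G → ZMod p × ZMod p, (∀ a ∈ S, ∀ b ∈ S, Φ (a + b) = Φ a + Φ b) ∧
      (∀ a ∈ S, ∀ b ∈ S, Φ a = Φ b → a = b) ∧ (∀ v, ∃ a ∈ S, Φ a = v) ∧
      (∀ a ∈ S, ∀ k : ℕ, Φ (k • a) = (k : ZMod p) • Φ a) := by
  classical
  obtain ⟨φ, hφ⟩ := transfer_phi0 (A := S) (fun z => Subtype.ext (hp z.1 z.2)) hc
  refine ⟨fun g => if h : g ∈ S then φ ⟨g, h⟩ else 0, ?_, ?_, ?_, ?_⟩
  · intro a ha b hb
    simp only [dif_pos ha, dif_pos hb, dif_pos (S.add_mem ha hb)]
    rw [← map_add]
    rfl
  · intro a ha b hb hab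
    simp only [dif_pos ha, dif_pos hb] at hab
    have := φ.injective hab
    exact congrArg Subtype.val this
  · intro v
    refine ⟨(φ.symm v).1, (φ.symm v).2, ?_⟩
    simp only [dif_pos (φ.symm v).2]
    exact φ.apply_symm_apply v
  · intro a ha k
    simp only [dif_pos ha, dif_pos (S.nsmul_mem ha k)]
    rw [← hφ]
    rfl

theorem good_pairs {p : ℕ} [Fact p.Prime] {r e : ℕ} {H K : Type*} [AddCommGroup H]
    [AddCommGroup K] [Fintype H] [Fintype K] [DecidableEq H] [DecidableEq K] (hp : p ≠ 2)
    (he : 2 ≤ e) (hH : Fintype.card H = p ^ r) {f : H → K} (hf : IsPlanar f)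
    (hexp : ∀ g : H × K, p ^ e • g = 0) (hP : (Pf H K (p ^ (e - 1))).card = p ^ 2) {a0 b0 : H}
    (h0 : p ^ (e - 1) • gr f a0 ≠ p ^ (e - 1) • gr f b0)
    (hgood : 3 * (II f (p ^ (e - 1)) (gr f a0 + gr f b0)).card < 4 * p ^ 2) :
    (NN f (p ^ (e - 1)) a0 b0).card = p := by
  have hpr : p.Prime := Fact.out
  have hident : ∀ (k : ℕ) (x : H × K), ((univ : Finset (H × H)).filter fun ab =>
        gr f ab.1 + gr f ab.2 +
          k • (p ^ (e - 1) • gr f ab.1 - p ^ (e - 1) • gr f ab.2) = x).card =
      ((univ : Finset (H × H)).filter fun ab => gr f ab.1 + gr f ab.2 = x).card := by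
    intro k x
    rw [← ident hp he hH f hf hexp k x]
    congr 1
    ext ab
    rw [mem_filter, mem_filter, smul_sub (p ^ (e - 1))]
  have hpm : p * p ^ (e - 1) = p ^ e := by
    rw [← pow_succ']
    congr 1
    omega
  have hmm : p ^ (e - 1) = p ^ (e - 2) * p := by
    rw [← pow_succ]
    congr 1
    omega
  set m := p ^ (e - 1) with hm
  have hodd : ∀ u : H × K, (2 : ℕ) • u = 0 → p • u = 0 → u = 0 := by
    intro u h2 hpu
    obtain ⟨q, hq⟩ := hpr.odd_of_ne_two hp
    rw [hq, add_smul, mul_comm, mul_smul, h2, smul_zero, zero_add, one_smul] at hpu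
    exact hpu
  set S : AddSubgroup (H × K) := (nsmulAddMonoidHom m : H × K →+ H × K).range with hS
  have hSP : ∀ z, z ∈ S ↔ z ∈ Pf H K m := by
    intro z
    rw [hS, AddMonoidHom.mem_range]
    unfold Pf
    rw [mem_image]
    constructor
    · rintro ⟨g, hg⟩
      exact ⟨g, mem_univ _, hg⟩
    · rintro ⟨g, _, hg⟩
      exact ⟨g, hg⟩
  have hmem : ∀ g : H × K, m • g ∈ S := fun g => by
    rw [hSP]
    exact mem_image_of_mem _ (mem_univ _)
  have hpS : ∀ z ∈ S, p • z = 0 := by
    rintro z ⟨g, rfl⟩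
    show p • (m • g) = 0
    rw [← mul_smul, hpm]
    exact hexp g
  have hmS : ∀ z ∈ S, m • z = 0 := by
    intro z hz
    rw [hmm, mul_smul, hpS z hz, smul_zero]
  have hcard : Nat.card S = p ^ 2 := by
    rw [← hP]
    have h1 : Nat.card S = Nat.card (Pf H K m) := by
      apply Nat.card_congr
      exact Equiv.subtypeEquivRight hSP
    rw [h1, Nat.card_eq_fintype_card, Fintype.card_coe]
  obtain ⟨Φ, hadd, hinj, hsurj, hsmul⟩ := transfer_phi S hpS hcard
  have hzero : Φ 0 = 0 := by
    have := hsmul 0 S.zero_mem 0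
    simpa using this
  have hneg : ∀ a ∈ S, Φ (-a) = - Φ a := by
    intro a ha
    have h1 := hadd a ha (-a) (S.neg_mem ha)
    rw [add_neg_cancel, hzero] at h1
    exact (neg_eq_of_add_eq_zero_right h1.symm).symm
  set x0 := gr f a0 + gr f b0 with hx0
  set τ := m • gr f a0 - m • gr f b0 with hτ
  have hτS : τ ∈ S := S.sub_mem (hmem _) (hmem _)
  let I := {ab : H × H // ab ∈ II f m x0}
  have hII : ∀ ab : H × H, ab ∈ II f m x0 ↔
      m • gr f ab.1 ≠ m • gr f ab.2 ∧ gr f ab.1 + gr f ab.2 - x0 ∈ S := by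
    intro ab
    unfold II
    rw [mem_filter, hSP]
    simp only [mem_univ, true_and]
  let y : I → ZMod p × ZMod p := fun i => Φ (gr f i.1.1 + gr f i.1.2 - x0)
  let δ : I → ZMod p × ZMod p := fun i => Φ (m • gr f i.1.1 - m • gr f i.1.2)
  have hdS : ∀ a b : H, m • gr f a - m • gr f b ∈ S := fun a b => S.sub_mem (hmem _) (hmem _)
  have hne : ∀ i : I, δ i ≠ 0 := by
    intro i h
    have h1 := ((hII i.1).mp i.2).1
    apply h1
    have h2 : Φ (m • gr f i.1.1 - m • gr f i.1.2) = Φ 0 := by rw [hzero]; exact h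
    exact sub_eq_zero.mp (hinj _ (hdS _ _) _ S.zero_mem h2)
  -- counting pairs with a given sum
  have hcount : ∀ (k : ℕ) (x : H × K), x - x0 ∈ S →
      ((II f m x0).filter fun ab =>
        gr f ab.1 + gr f ab.2 + k • (m • gr f ab.1 - m • gr f ab.2) = x).card =
      ((II f m x0).filter fun ab => gr f ab.1 + gr f ab.2 = x).card := by
    intro k x hx
    have hk : ∀ k : ℕ, ((II f m x0).filter fun ab =>
          gr f ab.1 + gr f ab.2 + k • (m • gr f ab.1 - m • gr f ab.2) = x).card +
        ((univ : Finset (H × H)).filter fun ab => m • gr f ab.1 = m • gr f ab.2 ∧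
          gr f ab.1 + gr f ab.2 = x).card =
        ((univ : Finset (H × H)).filter fun ab =>
          gr f ab.1 + gr f ab.2 + k • (m • gr f ab.1 - m • gr f ab.2) = x).card := by
      intro k
      rw [← card_union_of_disjoint]
      · congr 1
        ext ab
        simp only [mem_union, mem_filter, hII, mem_univ, true_and]
        constructor
        · rintro (⟨⟨_, _⟩, h3⟩ | ⟨h1, h2⟩)
          · exact h3
          · rw [h1, sub_self, smul_zero, add_zero]
            exact h2
        · intro h3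
          by_cases h1 : m • gr f ab.1 = m • gr f ab.2
          · right
            refine ⟨h1, ?_⟩
            rw [h1, sub_self, smul_zero, add_zero] at h3
            exact h3
          · left
            refine ⟨⟨h1, ?_⟩, h3⟩
            have h4 : gr f ab.1 + gr f ab.2 - x0 =
                (x - x0) - k • (m • gr f ab.1 - m • gr f ab.2) := by
              rw [← h3]
              abel
            rw [h4]
            exact S.sub_mem hx (S.nsmul_mem (hdS _ _) k)
      · rw [disjoint_left]
        intro ab h1 h2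
        exact ((hII ab).mp (mem_filter.mp h1).1).1 (mem_filter.mp h2).2.1
    have e1 := hk k
    have e2 := hk 0
    have e3 := hident k x
    have e4 : ((univ : Finset (H × H)).filter fun ab =>
          gr f ab.1 + gr f ab.2 + 0 • (m • gr f ab.1 - m • gr f ab.2) = x).card =
        ((univ : Finset (H × H)).filter fun ab => gr f ab.1 + gr f ab.2 = x).card := by
      congr 1
      ext ab
      simp only [mem_filter, zero_smul, add_zero]
    have e5 : ((II f m x0).filter fun ab =>
          gr f ab.1 + gr f ab.2 + 0 • (m • gr f ab.1 - m • gr f ab.2) = x).card =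
        ((II f m x0).filter fun ab => gr f ab.1 + gr f ab.2 = x).card := by
      congr 1
      ext ab
      simp only [mem_filter, zero_smul, add_zero]
    omega
  have hswap : ∀ i : I, (i.1.2, i.1.1) ∈ II f m x0 := by
    intro i
    have h1 := (hII i.1).mp i.2
    rw [hII]
    exact ⟨fun h => h1.1 h.symm, by rw [add_comm]; exact h1.2⟩
  have htwo : ∀ i : I, ((II f m x0).filter fun ab =>
      gr f ab.1 + gr f ab.2 = gr f i.1.1 + gr f i.1.2).card = 2 := by
    intro i
    have h1 := (hII i.1).mp i.2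
    have hne' : i.1.1 ≠ i.1.2 := fun h => h1.1 (by rw [h])
    have h2 : ((II f m x0).filter fun ab =>
        gr f ab.1 + gr f ab.2 = gr f i.1.1 + gr f i.1.2) = {i.1, (i.1.2, i.1.1)} := by
      ext ab
      rw [mem_filter, mem_insert, mem_singleton]
      constructor
      · rintro ⟨_, h3⟩
        rcases sidon hf h3 with ⟨h4, h5⟩ | ⟨h4, h5⟩
        · left
          exact Prod.ext h4 h5
        · right
          exact Prod.ext h4 h5
      · rintro (h3 | h3)
        · rw [h3]
          exact ⟨i.2, rfl⟩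
        · rw [h3]
          exact ⟨hswap i, add_comm _ _⟩
    rw [h2, card_pair]
    intro h3
    exact hne' (congrArg Prod.fst h3)
  have hflags : Flags p y δ (univ.image y) := by
    refine ⟨hne, ?_, ?_, ?_, ?_⟩
    · intro k v
      obtain ⟨z, hz, hzv⟩ := hsurj v
      have hkk : ((k.val : ℕ) : ZMod p) = k := ZMod.natCast_zmod_val k
      have hiff : ∀ i : I, y i + k • δ i = v ↔
          gr f i.1.1 + gr f i.1.2 + k.val • (m • gr f i.1.1 - m • gr f i.1.2) = x0 + z := by
        intro i
        have h1 := ((hII i.1).mp i.2).2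
        have h2 : y i + k • δ i =
            Φ (gr f i.1.1 + gr f i.1.2 - x0 + k.val • (m • gr f i.1.1 - m • gr f i.1.2)) := by
          rw [hadd _ h1 _ (S.nsmul_mem (hdS _ _) _), hsmul _ (hdS _ _), hkk]
        rw [h2, ← hzv]
        constructor
        · intro h3
          have h4 := hinj _ (S.add_mem h1 (S.nsmul_mem (hdS _ _) _)) _ hz h3
          rw [← h4]
          abel
        · intro h3
          congr 1
          have h4 : gr f i.1.1 + gr f i.1.2 - x0 + k.val • (m • gr f i.1.1 - m • gr f i.1.2)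
              = (gr f i.1.1 + gr f i.1.2 + k.val • (m • gr f i.1.1 - m • gr f i.1.2)) - x0 := by
            abel
          rw [h4, h3]
          abel
      have h5 : (univ.filter fun i : I => y i + k • δ i = v).card =
          ((II f m x0).filter fun ab =>
            gr f ab.1 + gr f ab.2 + k.val • (m • gr f ab.1 - m • gr f ab.2) = x0 + z).card := by
        refine card_bij (fun i _ => i.1) ?_ ?_ ?_
        · intro i hi
          rw [mem_filter]
          exact ⟨i.2, (hiff i).mp (mem_filter.mp hi).2⟩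
        · intro i _ j _ h
          exact Subtype.ext h
        · intro ab hab
          have hab' := mem_filter.mp hab
          exact ⟨⟨ab, hab'.1⟩, mem_filter.mpr ⟨mem_univ _, (hiff ⟨ab, hab'.1⟩).mpr hab'.2⟩, rfl⟩
      rw [h5, hcount _ _ (by rw [add_sub_cancel_left]; exact hz)]
      split_ifs with hv
      · obtain ⟨i, _, hi⟩ := mem_image.mp hv
        have h6 : gr f i.1.1 + gr f i.1.2 = x0 + z := by
          have h7 := hinj _ ((hII i.1).mp i.2).2 _ hz (hi.trans hzv.symm)
          rw [← h7]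
          abel
        rw [← h6]
        exact htwo i
      · rw [card_eq_zero, filter_eq_empty_iff]
        intro ab hab h6
        apply hv
        rw [mem_image]
        refine ⟨⟨ab, hab⟩, mem_univ _, ?_⟩
        show Φ (gr f ab.1 + gr f ab.2 - x0) = v
        rw [h6, add_sub_cancel_left, hzv]
    · intro i
      refine ⟨⟨(i.1.2, i.1.1), hswap i⟩, ?_, ?_⟩
      · show Φ (gr f i.1.2 + gr f i.1.1 - x0) = Φ (gr f i.1.1 + gr f i.1.2 - x0)
        rw [add_comm (gr f i.1.2)]
      · show Φ (m • gr f i.1.2 - m • gr f i.1.1) = - Φ (m • gr f i.1.1 - m • gr f i.1.2)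
        rw [← hneg _ (hdS _ _)]
        congr 1
        abel
    · intro i j hy hd
      have h1 := hinj _ ((hII i.1).mp i.2).2 _ ((hII j.1).mp j.2).2 hy
      have h2 : gr f i.1.1 + gr f i.1.2 = gr f j.1.1 + gr f j.1.2 := sub_left_injective h1
      have h3 := hinj _ (hdS _ _) _ (hdS _ _) hd
      rcases sidon hf h2 with ⟨h4, h5⟩ | ⟨h4, h5⟩
      · exact Subtype.ext (Prod.ext h4 h5)
      · exfalso
        rw [← h4, ← h5] at h3
        apply ((hII i.1).mp i.2).1
        rw [← sub_eq_zero]
        apply hodd _ _ (hpS _ (hdS _ _))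
        rw [two_smul]
        nth_rewrite 2 [h3]
        abel
    · show 3 * Fintype.card {ab : H × H // ab ∈ II f m x0} < 4 * p ^ 2
      rw [Fintype.card_coe]
      exact hgood
  have hi0 : (a0, b0) ∈ II f m x0 := by
    rw [hII]
    refine ⟨h0, ?_⟩
    show gr f a0 + gr f b0 - x0 ∈ S
    rw [hx0, sub_self]
    exact S.zero_mem
  have hmain := hflags.main hp ⟨(a0, b0), hi0⟩
  rw [← hmain]
  have hy0 : y ⟨(a0, b0), hi0⟩ = 0 := by
    show Φ (gr f a0 + gr f b0 - x0) = 0
    rw [hx0, sub_self, hzero]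
  have hd0 : δ ⟨(a0, b0), hi0⟩ = Φ τ := rfl
  symm
  refine card_bij (fun i _ => i.1) ?_ ?_ ?_
  · intro i hi
    obtain ⟨_, h1, h2⟩ := mem_filter.mp hi
    rw [mem_line_iff (hne _), hy0] at h2
    obtain ⟨k, hk⟩ := h2
    have h3 : m • gr f i.1.1 - m • gr f i.1.2 = τ := hinj _ (hdS _ _) _ hτS h1
    have h4 : gr f i.1.1 + gr f i.1.2 - x0 = k.val • τ := by
      apply hinj _ ((hII i.1).mp i.2).2 _ (S.nsmul_mem hτS _)
      rw [hsmul _ hτS, ZMod.natCast_zmod_val]
      rw [zero_add] at hk
      exact hk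
    have h5 : gr f i.1.1 + gr f i.1.2 = x0 + k.val • τ := by
      rw [← h4]
      abel
    have h6 : m • gr f i.1.1 + m • gr f i.1.2 = m • gr f a0 + m • gr f b0 := by
      rw [← smul_add, h5, smul_add, hx0, smul_add, smul_comm m k.val τ, hmS τ hτS, smul_zero,
        add_zero]
    have h7 : m • gr f i.1.1 = m • gr f a0 := by
      rw [← sub_eq_zero]
      apply hodd _ _ (hpS _ (hdS _ _))
      have h8 : (2 : ℕ) • (m • gr f i.1.1 - m • gr f a0) =
          (m • gr f i.1.1 + m • gr f i.1.2) + (m • gr f i.1.1 - m • gr f i.1.2)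
            - (2 : ℕ) • (m • gr f a0) := by
        rw [two_smul, two_smul]
        abel
      rw [h8, h6, h3, hτ, two_smul]
      abel
    have h9 : m • gr f i.1.2 = m • gr f b0 := by
      rw [h7] at h6
      exact add_left_cancel h6
    classical
    unfold NN
    rw [mem_filter]
    exact ⟨mem_univ _, h7, h9, k.val, h5⟩
  · intro i _ j _ h
    exact Subtype.ext h
  · intro cd hcd
    classical
    unfold NN at hcd
    obtain ⟨_, h1, h2, k, hk⟩ := mem_filter.mp hcd
    have h3 : gr f cd.1 + gr f cd.2 - x0 = k • τ := by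
      rw [hk, hx0]
      abel
    have h4 : cd ∈ II f m x0 := by
      rw [hII]
      refine ⟨?_, ?_⟩
      · rw [h1, h2]
        exact h0
      · rw [h3]
        exact S.nsmul_mem hτS k
    refine ⟨⟨cd, h4⟩, ?_, rfl⟩
    rw [mem_filter]
    refine ⟨mem_univ _, ?_, ?_⟩
    · show Φ (m • gr f cd.1 - m • gr f cd.2) = Φ τ
      rw [h1, h2]
    · rw [mem_line_iff (hne _), hy0]
      refine ⟨(k : ZMod p), ?_⟩
      show Φ (gr f cd.1 + gr f cd.2 - x0) = 0 + (k : ZMod p) • Φ τ
      rw [h3, hsmul _ hτS, zero_add]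

end Pool.Agent.H16.PF3
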